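import Mathlib

/-!
# Correlations of the quadratic character and of the indicator of zero modulo a prime
-/

namespace Pool.Agent.Sarkozy

open Finset

/-- centred indicator of the multiples of `p` -/
noncomputable def vv (p x : ℕ) : ℝ := (if p ∣ x then 1 else 0) - 1 / p

/-- the Legendre symbol mod `p`, as a real valued function on `ℕ` -/
noncomputable def cc (p x : ℕ) : ℝ := ((jacobiSym (x : ℤ) p : ℤ) : ℝ)

section zmod

variable {p : ℕ} [Fact p.Prime]

/-- centred indicator of zero -/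
noncomputable def VZ (p : ℕ) (z : ZMod p) : ℝ := (if z = 0 then 1 else 0) - 1 / p

/-- real valued quadratic character -/
noncomputable def XZ (p : ℕ) [Fact p.Prime] (z : ZMod p) : ℝ :=
  ((quadraticChar (ZMod p) z : ℤ) : ℝ)

lemma sum_VZ : ∑ z : ZMod p, VZ p z = 0 := by
  have hp : (0:ℝ) < p := by exact_mod_cast (Fact.out : p.Prime).pos
  unfold VZ
  rw [Finset.sum_sub_distrib, Finset.sum_ite_eq' Finset.univ (0 : ZMod p)]
  simp only [Finset.mem_univ, if_true, Finset.sum_const, Finset.card_univ, ZMod.card, nsmul_eq_mul]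
  field_simp
  norm_num

lemma sum_XZ (hp2 : p ≠ 2) : ∑ z : ZMod p, XZ p z = 0 := by
  unfold XZ
  have h : ringChar (ZMod p) ≠ 2 := by rwa [ZMod.ringChar_zmod_n]
  have := quadraticChar_sum_zero h
  exact_mod_cast this

lemma sum_ind_mul (F : ZMod p → ℝ) (d : ZMod p) :
    ∑ z : ZMod p, VZ p (z + d) * F z = F (-d) - (1 / p) * ∑ z : ZMod p, F z := by
  unfold VZ
  simp only [sub_mul, Finset.sum_sub_distrib, ← Finset.mul_sum]
  congr 1
  have : ∀ z : ZMod p, (if z + d = 0 then (1:ℝ) else 0) * F z = if z = -d then F z else 0 := by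
    intro z
    by_cases h : z = -d
    · simp [h]
    · have h' : z + d ≠ 0 := fun h2 => h (eq_neg_of_add_eq_zero_left h2)
      simp [h, h']
  simp only [this]
  rw [Finset.sum_ite_eq' Finset.univ (-d)]
  simp

lemma VZ_neg (d : ZMod p) : VZ p (-d) = VZ p d := by
  unfold VZ; simp

lemma corr_VV (d : ZMod p) : ∑ z : ZMod p, VZ p z * VZ p (z + d) = VZ p d := by
  have h := sum_ind_mul (fun z => VZ p z) d
  rw [sum_VZ, mul_zero, sub_zero, VZ_neg] at h
  rw [← h]
  exact Finset.sum_congr rfl fun z _ => mul_comm _ _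

lemma corr_XV (hp2 : p ≠ 2) (d : ZMod p) :
    ∑ z : ZMod p, XZ p z * VZ p (z + d) = XZ p (-d) := by
  have h := sum_ind_mul (fun z => XZ p z) d
  rw [sum_XZ hp2, mul_zero, sub_zero] at h
  rw [← h]
  exact Finset.sum_congr rfl fun z _ => mul_comm _ _

lemma corr_VX (hp2 : p ≠ 2) (d : ZMod p) :
    ∑ z : ZMod p, VZ p z * XZ p (z + d) = XZ p d := by
  have h := corr_XV hp2 (-d)
  rw [neg_neg] at h
  rw [← h]
  refine Fintype.sum_equiv (Equiv.addRight d) _ _ fun z => ?_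
  simp only [Equiv.coe_addRight, add_neg_cancel_right]
  ring

lemma XZ_mul (a b : ZMod p) : XZ p (a * b) = XZ p a * XZ p b := by
  unfold XZ; rw [map_mul]; push_cast; ring

lemma XZ_zero : XZ p 0 = 0 := by
  unfold XZ; simp

lemma XZ_sq (a : ZMod p) (ha : a ≠ 0) : XZ p a * XZ p a = 1 := by
  unfold XZ
  have h := quadraticChar_sq_one ha
  have h2 : ((quadraticChar (ZMod p) a : ℤ) : ℝ) ^ 2 = 1 := by exact_mod_cast h
  nlinarith [h2]

lemma corr_XX (hp2 : p ≠ 2) (d : ZMod p) :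
    ∑ z : ZMod p, XZ p z * XZ p (z + d) = p * VZ p d := by
  have hpp : p.Prime := Fact.out
  have hp : (0:ℝ) < p := by exact_mod_cast hpp.pos
  by_cases hd : d = 0
  · subst hd
    have h1 : ∀ z : ZMod p, XZ p z * XZ p (z + 0) = 1 - if z = 0 then 1 else 0 := by
      intro z
      rw [add_zero]
      by_cases hz : z = 0
      · simp [hz, XZ_zero]
      · rw [XZ_sq z hz]; simp [hz]
    simp only [h1, Finset.sum_sub_distrib]
    rw [Finset.sum_ite_eq' Finset.univ (0 : ZMod p)]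
    simp only [Finset.mem_univ, if_true, Finset.sum_const, Finset.card_univ, ZMod.card,
      nsmul_eq_mul, VZ]
    field_simp
  · have hchar : ringChar (ZMod p) ≠ 2 := by rwa [ZMod.ringChar_zmod_n]
    have hne := quadraticChar_ne_one hchar
    have hinv : (quadraticChar (ZMod p))⁻¹ = quadraticChar (ZMod p) :=
      MulChar.IsQuadratic.inv (quadraticChar_isQuadratic _)
    have hJ := jacobiSum_nontrivial_inv hne
    rw [hinv] at hJ
    unfold jacobiSum at hJ
    have hJ' : ∑ x : ZMod p, XZ p x * XZ p (1 - x) = - XZ p (-1) := by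
      unfold XZ; exact_mod_cast hJ
    -- substitute z = - d x
    have hsub : ∑ z : ZMod p, XZ p z * XZ p (z + d) =
        ∑ x : ZMod p, XZ p (-d * x) * XZ p (-d * x + d) := by
      symm
      refine Fintype.sum_equiv (Equiv.mulLeft₀ (-d) (neg_ne_zero.mpr hd)) _ _ fun x => ?_
      simp
    rw [hsub]
    have h2 : ∀ x : ZMod p, XZ p (-d * x) * XZ p (-d * x + d) =
        (XZ p (-1)) * (XZ p x * XZ p (1 - x)) := by
      intro x
      have e1 : -d * x + d = d * (1 - x) := by ring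
      have e2 : -d * x = (-1) * d * x := by ring
      rw [e1, e2, XZ_mul, XZ_mul, XZ_mul]
      have := XZ_sq d hd
      calc XZ p (-1) * XZ p d * XZ p x * (XZ p d * XZ p (1 - x))
          = XZ p (-1) * (XZ p x * XZ p (1 - x)) * (XZ p d * XZ p d) := by ring
        _ = _ := by rw [this, mul_one]
    simp only [h2]
    rw [← Finset.mul_sum, hJ']
    have h3 : XZ p (-1) * XZ p (-1) = 1 := XZ_sq _ (neg_ne_zero.mpr one_ne_zero)
    unfold VZ
    simp only [hd, if_false]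
    field_simp
    linarith

end zmod

lemma sum_range_zmod {p : ℕ} [NeZero p] (F : ZMod p → ℝ) :
    ∑ x ∈ range p, F (x : ZMod p) = ∑ z : ZMod p, F z := by
  refine Finset.sum_bij' (fun x _ => (x : ZMod p)) (fun z _ => z.val) ?_ ?_ ?_ ?_ ?_
  · intro x _; exact Finset.mem_univ _
  · intro z _; exact Finset.mem_range.mpr (ZMod.val_lt z)
  · intro x hx; exact ZMod.val_cast_of_lt (Finset.mem_range.mp hx)
  · intro z _; simp
  · intro x _; rfl

lemma vv_eq {p : ℕ} (x : ℕ) : vv p x = VZ p (x : ZMod p) := by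
  unfold vv VZ
  simp only [ZMod.natCast_eq_zero_iff]

lemma cc_eq {p : ℕ} [Fact p.Prime] (x : ℕ) : cc p x = XZ p (x : ZMod p) := by
  unfold cc XZ
  rw [← jacobiSym.legendreSym.to_jacobiSym]
  unfold legendreSym
  simp

lemma vv_periodic (p x : ℕ) : vv p (x + p) = vv p x := by
  unfold vv
  simp

lemma cc_periodic (p x : ℕ) : cc p (x + p) = cc p x := by
  unfold cc
  congr 1
  apply jacobiSym.mod_left'
  push_cast
  simp

lemma sum_vv {p : ℕ} (hp : p.Prime) : ∑ x ∈ range p, vv p x = 0 := by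
  have : Fact p.Prime := ⟨hp⟩
  have : NeZero p := ⟨hp.ne_zero⟩
  simp only [vv_eq]
  rw [sum_range_zmod (fun z => VZ p z), sum_VZ]

lemma sum_cc {p : ℕ} (hp : p.Prime) (hp2 : p ≠ 2) : ∑ x ∈ range p, cc p x = 0 := by
  have : Fact p.Prime := ⟨hp⟩
  have : NeZero p := ⟨hp.ne_zero⟩
  simp only [cc_eq]
  rw [sum_range_zmod (fun z => XZ p z), sum_XZ hp2]

lemma sum_vv_vv {p : ℕ} (hp : p.Prime) (d : ℕ) :
    ∑ x ∈ range p, vv p x * vv p (x + d) = vv p d := by
  have : Fact p.Prime := ⟨hp⟩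
  have : NeZero p := ⟨hp.ne_zero⟩
  simp only [vv_eq, Nat.cast_add]
  rw [sum_range_zmod (fun z => VZ p z * VZ p (z + (d : ZMod p))), corr_VV]

lemma sum_vv_cc {p : ℕ} (hp : p.Prime) (hp2 : p ≠ 2) (d : ℕ) :
    ∑ x ∈ range p, vv p x * cc p (x + d) = cc p d := by
  have : Fact p.Prime := ⟨hp⟩
  have : NeZero p := ⟨hp.ne_zero⟩
  simp only [vv_eq, cc_eq, Nat.cast_add]
  rw [sum_range_zmod (fun z => VZ p z * XZ p (z + (d : ZMod p))), corr_VX hp2]

/-- the sign `χ_p(-1)` -/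
noncomputable def sg (p : ℕ) : ℝ := ((jacobiSym (-1) p : ℤ) : ℝ)

lemma sum_cc_vv {p : ℕ} (hp : p.Prime) (hp2 : p ≠ 2) (d : ℕ) :
    ∑ x ∈ range p, cc p x * vv p (x + d) = sg p * cc p d := by
  have : Fact p.Prime := ⟨hp⟩
  have : NeZero p := ⟨hp.ne_zero⟩
  simp only [vv_eq, cc_eq, Nat.cast_add]
  rw [sum_range_zmod (fun z => XZ p z * VZ p (z + (d : ZMod p))), corr_XV hp2]
  have : (-(d : ZMod p)) = (-1) * (d : ZMod p) := by ring
  rw [this, XZ_mul]
  congr 1
  unfold sg XZ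
  rw [← jacobiSym.legendreSym.to_jacobiSym]
  unfold legendreSym
  simp

lemma sum_cc_cc {p : ℕ} (hp : p.Prime) (hp2 : p ≠ 2) (d : ℕ) :
    ∑ x ∈ range p, cc p x * cc p (x + d) = p * vv p d := by
  have : Fact p.Prime := ⟨hp⟩
  have : NeZero p := ⟨hp.ne_zero⟩
  simp only [vv_eq, cc_eq, Nat.cast_add]
  rw [sum_range_zmod (fun z => XZ p z * XZ p (z + (d : ZMod p))), corr_XX hp2]

lemma cc_sq_of_not_dvd {p y : ℕ} (hp : p.Prime) (h : ¬ p ∣ y) : cc p (y ^ 2) = 1 := by
  unfold cc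
  have hg : (y : ℤ).gcd p = 1 := by
    rw [Int.gcd_natCast_natCast]
    exact (Nat.Coprime.symm ((Nat.Prime.coprime_iff_not_dvd hp).mpr h))
  have := jacobiSym.sq_one' hg
  push_cast
  rw [this]
  norm_num

lemma cc_eq_zero_of_dvd {p y : ℕ} (hp : p.Prime) (h : p ∣ y) : cc p (y ^ 2) = 0 := by
  have : Fact p.Prime := ⟨hp⟩
  rw [cc_eq]
  have : ((y ^ 2 : ℕ) : ZMod p) = 0 := by
    rw [ZMod.natCast_eq_zero_iff]
    exact dvd_pow h (by norm_num)
  rw [this, XZ_zero]

lemma abs_cc_le (p x : ℕ) : |cc p x| ≤ 1 := by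
  unfold cc
  rcases jacobiSym.trichotomy (x : ℤ) p with h | h | h <;> rw [h] <;> norm_num

lemma sg_mul {p q : ℕ} (hp : Odd p) (hq : Odd q) (h : p % 4 = q % 4) : sg p * sg q = 1 := by
  unfold sg
  rw [jacobiSym.at_neg_one hp, jacobiSym.at_neg_one hq]
  have h1 : (ZMod.χ₄ p : ℤ) = ZMod.χ₄ q := by
    have : (p : ZMod 4) = (q : ZMod 4) := by
      rw [ZMod.natCast_eq_natCast_iff]; exact h
    rw [this]
  rw [h1]
  have h2 : (ZMod.χ₄ q : ℤ) * ZMod.χ₄ q = 1 := by
    have := ZMod.χ₄_nat_eq_if_mod_four q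
    rw [this]
    have h4 : q % 2 ≠ 0 := by have := Nat.odd_iff.mp hq; omega
    simp only [h4, if_false]
    split_ifs <;> norm_num
  exact_mod_cast h2

end Pool.Agent.Sarkozy
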