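import Mathlib

/-!
# Sums of periodic functions on `ℕ`
-/

namespace Pool.Agent.Sarkozy

open Finset

lemma periodic_mod {a : ℕ → ℝ} {m : ℕ} (ha : ∀ x, a (x + m) = a x) (x : ℕ) : a (x % m) = a x := by
  have h : ∀ t y, a (y + m * t) = a y := by
    intro t
    induction t with
    | zero => intro y; simp
    | succ t ih => intro y; rw [mul_add, mul_one, ← add_assoc, ha, ih]
  conv_rhs => rw [← Nat.mod_add_div x m]
  rw [h]

lemma periodic_mul {a : ℕ → ℝ} {m : ℕ} (ha : ∀ x, a (x + m) = a x) (t x : ℕ) :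
    a (x + m * t) = a x := by
  induction t with
  | zero => simp
  | succ t ih => rw [mul_add, mul_one, ← add_assoc, ha, ih]

/-- Chinese remainder theorem for sums of products of periodic functions. -/
lemma sum_crt {m n : ℕ} (hm : 0 < m) (hn : 0 < n) (hmn : Nat.Coprime m n) {a b : ℕ → ℝ}
    (ha : ∀ x, a (x + m) = a x) (hb : ∀ x, b (x + n) = b x) :
    ∑ x ∈ range (m * n), a x * b x = (∑ x ∈ range m, a x) * ∑ x ∈ range n, b x := by
  rw [Finset.sum_mul_sum, ← Finset.sum_product']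
  have hmaps : Set.MapsTo (fun x : ℕ => (x % m, x % n)) (range (m * n) : Finset ℕ)
      (range m ×ˢ range n : Finset (ℕ × ℕ)) := by
    intro x _
    simp only [Finset.coe_product, Finset.coe_range, Set.mem_prod, Set.mem_Iio]
    exact ⟨Nat.mod_lt _ hm, Nat.mod_lt _ hn⟩
  have hinj : Set.InjOn (fun x : ℕ => (x % m, x % n)) (range (m * n) : Finset ℕ) := by
    intro x hx y hy hxy
    simp only [Finset.coe_range, Set.mem_Iio] at hx hy
    simp only [Prod.mk.injEq] at hxy
    have h : x ≡ y [MOD m * n] := (Nat.modEq_and_modEq_iff_modEq_mul hmn).mp ⟨hxy.1, hxy.2⟩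
    have h' := h
    unfold Nat.ModEq at h'
    rwa [Nat.mod_eq_of_lt hx, Nat.mod_eq_of_lt hy] at h'
  have hsurj : Set.SurjOn (fun x : ℕ => (x % m, x % n)) (range (m * n) : Finset ℕ)
      (range m ×ˢ range n : Finset (ℕ × ℕ)) :=
    Finset.surjOn_of_injOn_of_card_le _ hmaps hinj (by simp)
  refine Finset.sum_nbij (fun x : ℕ => (x % m, x % n)) (fun x hx => hmaps hx) hinj hsurj ?_
  intro x _
  simp only
  rw [periodic_mod ha, periodic_mod hb]

/-- shifting does not change the sum over a period -/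
lemma sum_shift {a : ℕ → ℝ} {m : ℕ} (ha : ∀ x, a (x + m) = a x) (d : ℕ) :
    ∑ x ∈ range m, a (x + d) = ∑ x ∈ range m, a x := by
  induction d with
  | zero => simp
  | succ d ih =>
    have h1 := Finset.sum_range_succ (fun x => a (x + d)) m
    have h2 := Finset.sum_range_succ' (fun x => a (x + d)) m
    have h3 : a (m + d) = a (0 + d) := by rw [zero_add, add_comm, ha]
    have h4 : ∑ x ∈ range m, a (x + (d + 1)) = ∑ x ∈ range m, a (x + 1 + d) := by
      refine Finset.sum_congr rfl fun x _ => ?_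
      congr 1; ring
    rw [h4]
    linarith

lemma sum_range_mul {a : ℕ → ℝ} {m : ℕ} (ha : ∀ x, a (x + m) = a x) (t : ℕ) :
    ∑ x ∈ range (m * t), a x = t * ∑ x ∈ range m, a x := by
  induction t with
  | zero => simp
  | succ t ih =>
    rw [mul_add, mul_one, Finset.sum_range_add, ih]
    have : ∑ x ∈ range m, a (m * t + x) = ∑ x ∈ range m, a x := by
      refine Finset.sum_congr rfl fun x _ => ?_
      rw [add_comm, periodic_mul ha]
    rw [this]
    push_cast
    ring

/-- Sums of a bounded periodic function over an initial interval. -/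
lemma sum_Icc_periodic {a : ℕ → ℝ} {m : ℕ} (hm : 0 < m) (ha : ∀ x, a (x + m) = a x)
    (hB : ∀ x, |a x| ≤ 1) {μ : ℝ} (hμ : ∑ x ∈ range m, a x = m * μ) (L : ℕ) :
    |∑ x ∈ Icc 1 L, a x - L * μ| ≤ 4 * m := by
  have hm' : (0:ℝ) < m := by exact_mod_cast hm
  have hμ1 : |μ| ≤ 1 := by
    have h1 : |∑ x ∈ range m, a x| ≤ m := by
      calc |∑ x ∈ range m, a x| ≤ ∑ x ∈ range m, |a x| := Finset.abs_sum_le_sum_abs _ _
        _ ≤ ∑ x ∈ range m, (1:ℝ) := Finset.sum_le_sum fun x _ => hB x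
        _ = m := by simp
    rw [hμ, abs_mul, abs_of_pos hm'] at h1
    by_contra hcon
    push Not at hcon
    nlinarith
  have hsplit : ∑ x ∈ Icc 1 L, a x = ∑ x ∈ range (L + 1), a x - a 0 := by
    have h := Finset.sum_range_succ' a L
    rw [h]
    have : ∑ x ∈ Icc 1 L, a x = ∑ x ∈ range L, a (x + 1) := by
      rw [Finset.range_eq_Ico, Finset.sum_Ico_add' (fun x => a x) 0 L 1]
      rfl
    rw [this]; ring
  have hdiv : ∑ x ∈ range (L + 1), a x =
      ((L + 1) / m : ℕ) * (m * μ) + ∑ x ∈ range ((L + 1) % m), a x := by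
    conv_lhs => rw [← Nat.div_add_mod (L + 1) m]
    rw [Finset.sum_range_add, sum_range_mul ha, hμ]
    congr 1
    refine Finset.sum_congr rfl fun x _ => ?_
    rw [add_comm, periodic_mul ha]
  have hr : (L + 1) % m ≤ m := (Nat.mod_lt _ hm).le
  have hr' : (((L + 1) % m : ℕ) : ℝ) ≤ m := by exact_mod_cast hr
  have h2 : |∑ x ∈ range ((L + 1) % m), a x| ≤ m := by
    calc |∑ x ∈ range ((L + 1) % m), a x| ≤ ∑ x ∈ range ((L + 1) % m), |a x| :=
          Finset.abs_sum_le_sum_abs _ _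
      _ ≤ ∑ x ∈ range ((L + 1) % m), (1:ℝ) := Finset.sum_le_sum fun x _ => hB x
      _ = (((L + 1) % m : ℕ) : ℝ) := by simp
      _ ≤ m := hr'
  have h3 : (L : ℝ) + 1 = ((L + 1) / m : ℕ) * m + ((L + 1) % m : ℕ) := by
    have := Nat.div_add_mod (L + 1) m
    have h : ((m * ((L + 1) / m) + (L + 1) % m : ℕ) : ℝ) = ((L + 1 : ℕ) : ℝ) := by rw [this]
    push_cast at h
    linarith
  have h4 : ∑ x ∈ Icc 1 L, a x - L * μ =
      ∑ x ∈ range ((L + 1) % m), a x - a 0 + μ - ((L + 1) % m : ℕ) * μ := by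
    rw [hsplit, hdiv]
    have : (L : ℝ) = ((L + 1) / m : ℕ) * m + ((L + 1) % m : ℕ) - 1 := by linarith
    rw [this]
    ring
  rw [h4]
  have h5 := hB 0
  have h6 : |(((L + 1) % m : ℕ) : ℝ) * μ| ≤ m := by
    rw [abs_mul, abs_of_nonneg (Nat.cast_nonneg _)]
    calc (((L + 1) % m : ℕ) : ℝ) * |μ| ≤ m * 1 :=
          mul_le_mul hr' hμ1 (abs_nonneg _) hm'.le
      _ = m := mul_one _
  have hm1 : (1:ℝ) ≤ m := by exact_mod_cast hm
  rw [abs_le] at *
  constructor <;> linarith [h2.1, h2.2, h5.1, h5.2, hμ1.1, hμ1.2, h6.1, h6.2]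

end Pool.Agent.Sarkozy
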