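import Mathlib
import Pool.Agent.Sarkozy.Periodic
import Pool.Agent.Sarkozy.Chars

/-!
# The building blocks `g_q`, `q = p₁ p₂`
-/

namespace Pool.Agent.Sarkozy

open Finset

/-- `g_q` for `q = z.1 * z.2`, a product of two distinct odd primes -/
noncomputable def gg (z : ℕ × ℕ) (x : ℕ) : ℝ :=
  vv z.1 x * vv z.2 x - (1 / Real.sqrt (z.1 * z.2)) * (cc z.1 x * cc z.2 x)

lemma vv_periodic_mul (p t x : ℕ) : vv p (x + p * t) = vv p x :=
  periodic_mul (vv_periodic p) t x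

lemma cc_periodic_mul (p t x : ℕ) : cc p (x + p * t) = cc p x :=
  periodic_mul (cc_periodic p) t x

lemma gg_periodic (z : ℕ × ℕ) (x : ℕ) : gg z (x + z.1 * z.2) = gg z x := by
  unfold gg
  rw [vv_periodic_mul, cc_periodic_mul]
  have h1 : vv z.2 (x + z.1 * z.2) = vv z.2 x := by rw [mul_comm z.1]; exact vv_periodic_mul _ _ _
  have h2 : cc z.2 (x + z.1 * z.2) = cc z.2 x := by rw [mul_comm z.1]; exact cc_periodic_mul _ _ _
  rw [h1, h2]

lemma gg_symm (z : ℕ × ℕ) (x : ℕ) : gg (z.2, z.1) x = gg z x := by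
  unfold gg
  simp only
  rw [mul_comm (z.2 : ℝ)]
  ring

/-- hypotheses on a pair: distinct odd primes in the same class mod 4 -/
structure GoodPair (z : ℕ × ℕ) : Prop where
  p1 : z.1.Prime
  p2 : z.2.Prime
  h1 : z.1 ≠ 2
  h2 : z.2 ≠ 2
  ne : z.1 ≠ z.2
  cls : z.1 % 4 = z.2 % 4

lemma GoodPair.coprime {z : ℕ × ℕ} (h : GoodPair z) : Nat.Coprime z.1 z.2 :=
  (Nat.coprime_primes h.p1 h.p2).mpr h.ne

lemma GoodPair.sg_mul {z : ℕ × ℕ} (h : GoodPair z) : sg z.1 * sg z.2 = 1 :=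
  Pool.Agent.Sarkozy.sg_mul (h.p1.odd_of_ne_two h.h1) (h.p2.odd_of_ne_two h.h2) h.cls

lemma sum_gg {z : ℕ × ℕ} (h : GoodPair z) : ∑ x ∈ range (z.1 * z.2), gg z x = 0 := by
  unfold gg
  rw [Finset.sum_sub_distrib, ← Finset.mul_sum,
    sum_crt h.p1.pos h.p2.pos h.coprime (vv_periodic _) (vv_periodic _),
    sum_crt h.p1.pos h.p2.pos h.coprime (cc_periodic _) (cc_periodic _),
    sum_vv h.p1, sum_cc h.p1 h.h1]
  simp

lemma sum_gg_self {z : ℕ × ℕ} (h : GoodPair z) (d : ℕ) :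
    ∑ x ∈ range (z.1 * z.2), gg z x * gg z (x + d) = 2 * gg z d := by
  have hp1 : (0:ℝ) < z.1 := by exact_mod_cast h.p1.pos
  have hp2 : (0:ℝ) < z.2 := by exact_mod_cast h.p2.pos
  set s : ℝ := 1 / Real.sqrt (z.1 * z.2) with hs
  have hss : s * s * (z.1 * z.2) = 1 := by
    rw [hs]
    have h0 : (0:ℝ) < z.1 * z.2 := mul_pos hp1 hp2
    have h1 : Real.sqrt (z.1 * z.2) * Real.sqrt (z.1 * z.2) = z.1 * z.2 :=
      Real.mul_self_sqrt h0.le
    have h2 : Real.sqrt (z.1 * z.2) ≠ 0 := (Real.sqrt_pos.mpr h0).ne'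
    field_simp
    nlinarith [h1]
  have e : ∀ x, gg z x * gg z (x + d) =
      ((vv z.1 x * vv z.1 (x + d)) * (vv z.2 x * vv z.2 (x + d))
      - s * ((vv z.1 x * cc z.1 (x + d)) * (vv z.2 x * cc z.2 (x + d))))
      - s * ((cc z.1 x * vv z.1 (x + d)) * (cc z.2 x * vv z.2 (x + d)))
      + s * s * ((cc z.1 x * cc z.1 (x + d)) * (cc z.2 x * cc z.2 (x + d))) := by
    intro x
    unfold gg
    rw [← hs]
    ring
  simp only [e]
  rw [Finset.sum_add_distrib, Finset.sum_sub_distrib, Finset.sum_sub_distrib,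
    ← Finset.mul_sum, ← Finset.mul_sum, ← Finset.mul_sum]
  have per : ∀ (u v : ℕ → ℕ → ℝ) (_ : ∀ p x, u p (x + p) = u p x) (_ : ∀ p x, v p (x + p) = v p x)
      (p x : ℕ), u p (x + p) * v p (x + p + d) = u p x * v p (x + d) := by
    intro u v hu hv p x
    have : x + p + d = x + d + p := by ring
    rw [hu, this, hv]
  rw [sum_crt (a := fun x => vv z.1 x * vv z.1 (x + d)) (b := fun x => vv z.2 x * vv z.2 (x + d))
      h.p1.pos h.p2.pos h.coprime (per vv vv vv_periodic vv_periodic z.1)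
      (per vv vv vv_periodic vv_periodic z.2),
    sum_crt (a := fun x => vv z.1 x * cc z.1 (x + d)) (b := fun x => vv z.2 x * cc z.2 (x + d))
      h.p1.pos h.p2.pos h.coprime (per vv cc vv_periodic cc_periodic z.1)
      (per vv cc vv_periodic cc_periodic z.2),
    sum_crt (a := fun x => cc z.1 x * vv z.1 (x + d)) (b := fun x => cc z.2 x * vv z.2 (x + d))
      h.p1.pos h.p2.pos h.coprime (per cc vv cc_periodic vv_periodic z.1)
      (per cc vv cc_periodic vv_periodic z.2),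
    sum_crt (a := fun x => cc z.1 x * cc z.1 (x + d)) (b := fun x => cc z.2 x * cc z.2 (x + d))
      h.p1.pos h.p2.pos h.coprime (per cc cc cc_periodic cc_periodic z.1)
      (per cc cc cc_periodic cc_periodic z.2)]
  rw [sum_vv_vv h.p1, sum_vv_vv h.p2, sum_vv_cc h.p1 h.h1, sum_vv_cc h.p2 h.h2,
    sum_cc_vv h.p1 h.h1, sum_cc_vv h.p2 h.h2, sum_cc_cc h.p1 h.h1, sum_cc_cc h.p2 h.h2]
  unfold gg
  rw [← hs]
  have hsg := h.sg_mul
  calc vv z.1 d * vv z.2 d - s * (cc z.1 d * cc z.2 d)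
        - s * (sg z.1 * cc z.1 d * (sg z.2 * cc z.2 d))
        + s * s * (z.1 * vv z.1 d * (z.2 * vv z.2 d))
      = vv z.1 d * vv z.2 d - s * (cc z.1 d * cc z.2 d)
        - s * (cc z.1 d * cc z.2 d) * (sg z.1 * sg z.2)
        + (s * s * (z.1 * z.2)) * (vv z.1 d * vv z.2 d) := by ring
    _ = _ := by rw [hsg, hss]; ring

lemma sum_cross_aux {p p0 M : ℕ} (hp : p.Prime) (hp2 : p ≠ 2) (hp0 : p0.Prime) (hM : 0 < M)
    (hne : p ≠ p0) (hpM : ¬ p ∣ M) (s : ℝ) {h : ℕ → ℝ} (hh : ∀ x, h (x + M) = h x) :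
    ∑ x ∈ range (p * (p0 * M)), (vv p x * vv p0 x - s * (cc p x * cc p0 x)) * h x = 0 := by
  have e : ∀ x, (vv p x * vv p0 x - s * (cc p x * cc p0 x)) * h x =
      vv p x * (vv p0 x * h x) - cc p x * (s * (cc p0 x * h x)) := by intro x; ring
  simp only [e]
  have hco : Nat.Coprime p (p0 * M) := by
    apply Nat.Coprime.mul_right
    · exact (Nat.coprime_primes hp hp0).mpr hne
    · exact (Nat.Prime.coprime_iff_not_dvd hp).mpr hpM
  have hhM : ∀ x, h (x + p0 * M) = h x := by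
    intro x
    rw [mul_comm]
    exact periodic_mul hh p0 x
  rw [Finset.sum_sub_distrib,
    sum_crt (b := fun x => vv p0 x * h x) hp.pos (Nat.mul_pos hp0.pos hM) hco (vv_periodic p)
      (fun x => by simp only [vv_periodic_mul, hhM]),
    sum_crt (b := fun x => s * (cc p0 x * h x)) hp.pos (Nat.mul_pos hp0.pos hM) hco (cc_periodic p)
      (fun x => by simp only [cc_periodic_mul, hhM]),
    sum_vv hp, sum_cc hp hp2]
  simp

lemma sum_gg_cross {z w : ℕ × ℕ} (hz : GoodPair z) (hw : GoodPair w)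
    (h : ¬ z.1 ∣ w.1 * w.2 ∨ ¬ z.2 ∣ w.1 * w.2) (d : ℕ) :
    ∑ x ∈ range ((z.1 * z.2) * (w.1 * w.2)), gg z x * gg w (x + d) = 0 := by
  have hM : 0 < w.1 * w.2 := Nat.mul_pos hw.p1.pos hw.p2.pos
  have hper : ∀ x, gg w (x + (w.1 * w.2) + d) = gg w (x + d) := by
    intro x
    have : x + w.1 * w.2 + d = x + d + w.1 * w.2 := by ring
    rw [this, gg_periodic]
  rcases h with h | h
  · have := sum_cross_aux (h := fun x => gg w (x + d)) hz.p1 hz.h1 hz.p2 hM hz.ne h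
      (1 / Real.sqrt (z.1 * z.2)) hper
    rw [mul_assoc]
    exact this
  · have := sum_cross_aux (h := fun x => gg w (x + d)) hz.p2 hz.h2 hz.p1 hM hz.ne.symm h
      (1 / Real.sqrt (z.2 * z.1)) hper
    have e1 : z.1 * z.2 * (w.1 * w.2) = z.2 * (z.1 * (w.1 * w.2)) := by ring
    rw [e1, ← this]
    refine Finset.sum_congr rfl fun x _ => ?_
    rw [← gg_symm z x]
    rfl

lemma abs_vv_le {p : ℕ} (hp : p.Prime) (x : ℕ) : |vv p x| ≤ 1 := by
  have hp1 : (1:ℝ) ≤ p := by exact_mod_cast hp.one_lt.le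
  have h1 : (1:ℝ) / p ≤ 1 := by rw [div_le_one (by linarith)]; exact hp1
  have h2 : (0:ℝ) < 1 / p := by positivity
  unfold vv
  rw [abs_le]
  split_ifs <;> constructor <;> linarith

lemma vv_of_dvd {p x : ℕ} (h : p ∣ x) : vv p x = 1 - 1 / p := by
  unfold vv; simp [h]

lemma vv_of_not_dvd {p x : ℕ} (h : ¬ p ∣ x) : vv p x = - (1 / p) := by
  unfold vv; simp [h]

lemma cc_of_dvd {p x : ℕ} (hp : p.Prime) (h : p ∣ x) : cc p x = 0 := by
  have : Fact p.Prime := ⟨hp⟩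
  rw [cc_eq]
  have : ((x : ℕ) : ZMod p) = 0 := by rwa [ZMod.natCast_eq_zero_iff]
  rw [this, XZ_zero]

lemma sqrt_ge {z : ℕ × ℕ} (h : GoodPair z) : (2:ℝ) ≤ Real.sqrt (z.1 * z.2) := by
  have h1 : (2:ℝ) ≤ z.1 := by exact_mod_cast h.p1.two_le
  have h2 : (2:ℝ) ≤ z.2 := by exact_mod_cast h.p2.two_le
  rw [show (2:ℝ) = Real.sqrt (2 ^ 2) by rw [Real.sqrt_sq (by norm_num)]]
  apply Real.sqrt_le_sqrt
  nlinarith

lemma abs_gg_le {z : ℕ × ℕ} (h : GoodPair z) (x : ℕ) : |gg z x| ≤ 1 := by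
  have h1 : (2:ℝ) ≤ z.1 := by exact_mod_cast h.p1.two_le
  have h2 : (2:ℝ) ≤ z.2 := by exact_mod_cast h.p2.two_le
  have i1 : (1:ℝ) / z.1 ≤ 1 / 2 := one_div_le_one_div_of_le (by norm_num) h1
  have i2 : (1:ℝ) / z.2 ≤ 1 / 2 := one_div_le_one_div_of_le (by norm_num) h2
  have j1 : (0:ℝ) < 1 / z.1 := by positivity
  have j2 : (0:ℝ) < 1 / z.2 := by positivity
  by_cases hd : z.1 ∣ x
  · have e : gg z x = vv z.1 x * vv z.2 x := by
      unfold gg; rw [cc_of_dvd h.p1 hd]; ring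
    rw [e, abs_mul]
    exact mul_le_one₀ (abs_vv_le h.p1 x) (abs_nonneg _) (abs_vv_le h.p2 x)
  · by_cases hd2 : z.2 ∣ x
    · have e : gg z x = vv z.1 x * vv z.2 x := by
        unfold gg; rw [cc_of_dvd h.p2 hd2]; ring
      rw [e, abs_mul]
      exact mul_le_one₀ (abs_vv_le h.p1 x) (abs_nonneg _) (abs_vv_le h.p2 x)
    · have hs := sqrt_ge h
      have k1 : 1 / Real.sqrt (z.1 * z.2) ≤ 1 / 2 := one_div_le_one_div_of_le (by norm_num) hs
      have k0 : 0 ≤ 1 / Real.sqrt (z.1 * z.2) := by positivity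
      have c : |cc z.1 x * cc z.2 x| ≤ 1 := by
        rw [abs_mul]; exact mul_le_one₀ (abs_cc_le _ _) (abs_nonneg _) (abs_cc_le _ _)
      unfold gg
      rw [vv_of_not_dvd hd, vv_of_not_dvd hd2]
      have a1 : |(-(1 / (z.1:ℝ))) * (-(1 / (z.2:ℝ)))| ≤ 1 / 4 := by
        rw [neg_mul_neg, abs_of_pos (mul_pos j1 j2)]
        nlinarith
      have a2 : |1 / Real.sqrt (z.1 * z.2) * (cc z.1 x * cc z.2 x)| ≤ 1 / 2 := by
        rw [abs_mul, abs_of_nonneg k0]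
        nlinarith [abs_nonneg (cc z.1 x * cc z.2 x)]
      calc |(-(1 / (z.1:ℝ))) * (-(1 / (z.2:ℝ))) - 1 / Real.sqrt (z.1 * z.2) * (cc z.1 x * cc z.2 x)|
          ≤ |(-(1 / (z.1:ℝ))) * (-(1 / (z.2:ℝ)))| + |1 / Real.sqrt (z.1 * z.2) * (cc z.1 x * cc z.2 x)| :=
            abs_sub _ _
        _ ≤ 1 := by linarith

/-- value at squares, when `q ∤ y²` partially -/
lemma gg_sq_nonpos {z : ℕ × ℕ} (h : GoodPair z) {y : ℕ} (hy : ¬ (z.1 ∣ y ∧ z.2 ∣ y)) :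
    gg z (y ^ 2) ≤ 0 := by
  have h1 : (2:ℝ) ≤ z.1 := by exact_mod_cast h.p1.two_le
  have h2 : (2:ℝ) ≤ z.2 := by exact_mod_cast h.p2.two_le
  have i1 : (1:ℝ) / z.1 ≤ 1 / 2 := one_div_le_one_div_of_le (by norm_num) h1
  have i2 : (1:ℝ) / z.2 ≤ 1 / 2 := one_div_le_one_div_of_le (by norm_num) h2
  have j1 : (0:ℝ) < 1 / z.1 := by positivity
  have j2 : (0:ℝ) < 1 / z.2 := by positivity
  have n1 : z.1 ∣ y ^ 2 ↔ z.1 ∣ y := ⟨fun h' => h.p1.dvd_of_dvd_pow h', fun h' => dvd_pow h' (by norm_num)⟩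
  have n2 : z.2 ∣ y ^ 2 ↔ z.2 ∣ y := ⟨fun h' => h.p2.dvd_of_dvd_pow h', fun h' => dvd_pow h' (by norm_num)⟩
  by_cases d1 : z.1 ∣ y
  · have d2 : ¬ z.2 ∣ y := fun h' => hy ⟨d1, h'⟩
    have e : gg z (y ^ 2) = vv z.1 (y ^ 2) * vv z.2 (y ^ 2) := by
      unfold gg; rw [cc_of_dvd h.p1 (n1.mpr d1)]; ring
    rw [e, vv_of_dvd (n1.mpr d1), vv_of_not_dvd (fun h' => d2 (n2.mp h'))]
    nlinarith
  · by_cases d2 : z.2 ∣ y
    · have e : gg z (y ^ 2) = vv z.1 (y ^ 2) * vv z.2 (y ^ 2) := by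
        unfold gg; rw [cc_of_dvd h.p2 (n2.mpr d2)]; ring
      rw [e, vv_of_dvd (n2.mpr d2), vv_of_not_dvd (fun h' => d1 (n1.mp h'))]
      nlinarith
    · have hs := sqrt_ge h
      unfold gg
      rw [vv_of_not_dvd (fun h' => d1 (n1.mp h')), vv_of_not_dvd (fun h' => d2 (n2.mp h')),
        cc_sq_of_not_dvd h.p1 d1, cc_sq_of_not_dvd h.p2 d2]
      have hp1 : (0:ℝ) < z.1 := by linarith
      have hp2 : (0:ℝ) < z.2 := by linarith
      have hq : Real.sqrt (z.1 * z.2) * Real.sqrt (z.1 * z.2) = z.1 * z.2 :=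
        Real.mul_self_sqrt (by positivity)
      have hpos : 0 < Real.sqrt (z.1 * z.2) := by linarith
      have : (-(1 / (z.1:ℝ))) * (-(1 / (z.2:ℝ))) = 1 / Real.sqrt (z.1 * z.2) * (1 / Real.sqrt (z.1 * z.2)) := by
        rw [neg_mul_neg, one_div_mul_one_div, one_div_mul_one_div, hq]
      rw [this]
      have k1 : 1 / Real.sqrt (z.1 * z.2) ≤ 1 / 2 := one_div_le_one_div_of_le (by norm_num) hs
      have k0 : 0 < 1 / Real.sqrt (z.1 * z.2) := by positivity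
      nlinarith

/-- value at squares prime to `q` -/
lemma gg_sq_le {z : ℕ × ℕ} (h : GoodPair z) {y : ℕ} (d1 : ¬ z.1 ∣ y) (d2 : ¬ z.2 ∣ y) :
    gg z (y ^ 2) ≤ - (1 / 2) * (1 / Real.sqrt (z.1 * z.2)) := by
  have h1 : (2:ℝ) ≤ z.1 := by exact_mod_cast h.p1.two_le
  have h2 : (2:ℝ) ≤ z.2 := by exact_mod_cast h.p2.two_le
  have n1 : z.1 ∣ y ^ 2 ↔ z.1 ∣ y := ⟨fun h' => h.p1.dvd_of_dvd_pow h', fun h' => dvd_pow h' (by norm_num)⟩
  have n2 : z.2 ∣ y ^ 2 ↔ z.2 ∣ y := ⟨fun h' => h.p2.dvd_of_dvd_pow h', fun h' => dvd_pow h' (by norm_num)⟩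
  have hs := sqrt_ge h
  unfold gg
  rw [vv_of_not_dvd (fun h' => d1 (n1.mp h')), vv_of_not_dvd (fun h' => d2 (n2.mp h')),
    cc_sq_of_not_dvd h.p1 d1, cc_sq_of_not_dvd h.p2 d2]
  have hp1 : (0:ℝ) < z.1 := by linarith
  have hp2 : (0:ℝ) < z.2 := by linarith
  have hq : Real.sqrt (z.1 * z.2) * Real.sqrt (z.1 * z.2) = z.1 * z.2 :=
    Real.mul_self_sqrt (by positivity)
  have hpos : 0 < Real.sqrt (z.1 * z.2) := by linarith
  have : (-(1 / (z.1:ℝ))) * (-(1 / (z.2:ℝ))) = 1 / Real.sqrt (z.1 * z.2) * (1 / Real.sqrt (z.1 * z.2)) := by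
    rw [neg_mul_neg, one_div_mul_one_div, one_div_mul_one_div, hq]
  rw [this]
  have k1 : 1 / Real.sqrt (z.1 * z.2) ≤ 1 / 2 := one_div_le_one_div_of_le (by norm_num) hs
  have k0 : 0 < 1 / Real.sqrt (z.1 * z.2) := by positivity
  nlinarith

end Pool.Agent.Sarkozy
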