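import Mathlib
import Pool.Agent.Sarkozy.Build

/-!
# The averaged function and its correlations
-/

namespace Pool.Agent.Sarkozy

open Finset

/-- The hypotheses on the two families of primes. -/
structure Fam (𝒜 ℬ : Finset ℕ) (k R P : ℕ) : Prop where
  hk : 0 < k
  hR : 2 ≤ R
  cA : 𝒜.card = k
  cB : ℬ.card = k
  disj : Disjoint 𝒜 ℬ
  pA : ∀ p ∈ 𝒜, p.Prime
  pB : ∀ p ∈ ℬ, p.Prime
  lA : ∀ p ∈ 𝒜, R < p
  lB : ∀ p ∈ ℬ, R < p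
  uA : ∀ p ∈ 𝒜, p ≤ P
  uB : ∀ p ∈ ℬ, p ≤ P
  cls : ∀ p ∈ 𝒜, ∀ q ∈ ℬ, p % 4 = q % 4

/-- The average of the `g_q`. -/
noncomputable def GG (𝒜 ℬ : Finset ℕ) (k : ℕ) (x : ℕ) : ℝ :=
  (1 / (k:ℝ) ^ 2) * ∑ z ∈ 𝒜 ×ˢ ℬ, gg z x

variable {𝒜 ℬ : Finset ℕ} {k R P : ℕ}

lemma Fam.good (F : Fam 𝒜 ℬ k R P) {z : ℕ × ℕ} (hz : z ∈ 𝒜 ×ˢ ℬ) : GoodPair z := by
  obtain ⟨h1, h2⟩ := Finset.mem_product.mp hz
  refine ⟨F.pA _ h1, F.pB _ h2, ?_, ?_, ?_, F.cls _ h1 _ h2⟩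
  · have := F.lA _ h1; have := F.hR; omega
  · have := F.lB _ h2; have := F.hR; omega
  · intro h
    exact (Finset.disjoint_left.mp F.disj h1) (h ▸ h2)

lemma card_dvd_le {S : Finset ℕ} {R J y : ℕ} (hR : 2 ≤ R) (hp : ∀ p ∈ S, p.Prime)
    (hl : ∀ p ∈ S, R < p) (hy : 0 < y) (hyJ : y < R ^ (J + 1)) :
    (S.filter (fun p => p ∣ y)).card ≤ J := by
  by_contra hcon
  push Not at hcon
  have h1 : ∏ p ∈ S.filter (fun p => p ∣ y), p ∣ y := by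
    apply Finset.prod_primes_dvd
    · intro p hp'; exact (hp p (Finset.mem_filter.mp hp').1).prime
    · intro p hp'; exact (Finset.mem_filter.mp hp').2
  have h2 : ∏ p ∈ S.filter (fun p => p ∣ y), R ≤ ∏ p ∈ S.filter (fun p => p ∣ y), p :=
    Finset.prod_le_prod' fun p hp' => (hl p (Finset.mem_filter.mp hp').1).le
  rw [Finset.prod_const] at h2
  have h3 := Nat.le_of_dvd hy h1
  have h4 : R ^ (J + 1) ≤ R ^ (S.filter (fun p => p ∣ y)).card :=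
    Nat.pow_le_pow_right (by omega) hcon
  omega

lemma abs_GG_le (F : Fam 𝒜 ℬ k R P) (x : ℕ) : |GG 𝒜 ℬ k x| ≤ 1 := by
  have hk : (0:ℝ) < k := by exact_mod_cast F.hk
  unfold GG
  rw [abs_mul, abs_of_pos (by positivity)]
  have h1 : |∑ z ∈ 𝒜 ×ˢ ℬ, gg z x| ≤ (k:ℝ) ^ 2 := by
    calc |∑ z ∈ 𝒜 ×ˢ ℬ, gg z x| ≤ ∑ z ∈ 𝒜 ×ˢ ℬ, |gg z x| := Finset.abs_sum_le_sum_abs _ _
      _ ≤ ∑ z ∈ 𝒜 ×ˢ ℬ, (1:ℝ) := Finset.sum_le_sum fun z hz => abs_gg_le (F.good hz) x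
      _ = (k:ℝ) ^ 2 := by
        rw [Finset.sum_const, Finset.card_product, F.cA, F.cB]
        simp [sq]
  calc 1 / (k:ℝ) ^ 2 * |∑ z ∈ 𝒜 ×ˢ ℬ, gg z x| ≤ 1 / (k:ℝ) ^ 2 * (k:ℝ) ^ 2 :=
        mul_le_mul_of_nonneg_left h1 (by positivity)
    _ = 1 := by field_simp

lemma prod_le_sq (F : Fam 𝒜 ℬ k R P) {z : ℕ × ℕ} (hz : z ∈ 𝒜 ×ˢ ℬ) :
    ((z.1 * z.2 : ℕ) : ℝ) ≤ (P:ℝ) ^ 2 := by
  obtain ⟨h1, h2⟩ := Finset.mem_product.mp hz
  have a : (z.1 : ℝ) ≤ P := by exact_mod_cast F.uA _ h1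
  have b : (z.2 : ℝ) ≤ P := by exact_mod_cast F.uB _ h2
  push_cast
  rw [sq]
  exact mul_le_mul a b (Nat.cast_nonneg _) (Nat.cast_nonneg _)

/-- sums of `G` over an interval, with a shift -/
lemma abs_sum_GG_le (F : Fam 𝒜 ℬ k R P) (L d : ℕ) :
    |∑ x ∈ Icc 1 L, GG 𝒜 ℬ k (x + d)| ≤ 4 * (P:ℝ) ^ 2 := by
  have hk : (0:ℝ) < k := by exact_mod_cast F.hk
  have h1 : ∑ x ∈ Icc 1 L, GG 𝒜 ℬ k (x + d) =
      (1 / (k:ℝ) ^ 2) * ∑ z ∈ 𝒜 ×ˢ ℬ, ∑ x ∈ Icc 1 L, gg z (x + d) := by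
    unfold GG
    rw [← Finset.mul_sum, Finset.sum_comm]
  have h2 : ∀ z ∈ 𝒜 ×ˢ ℬ, |∑ x ∈ Icc 1 L, gg z (x + d)| ≤ 4 * (P:ℝ) ^ 2 := by
    intro z hz
    have hg := F.good hz
    have h := sum_Icc_periodic (a := fun x => gg z (x + d)) (m := z.1 * z.2) (μ := 0)
      (Nat.mul_pos hg.p1.pos hg.p2.pos)
      (fun x => by
        have : x + z.1 * z.2 + d = x + d + z.1 * z.2 := by ring
        simp only [this, gg_periodic])
      (fun x => abs_gg_le hg _)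
      (by rw [sum_shift (fun x => gg_periodic z x) d, sum_gg hg, mul_zero]) L
    rw [mul_zero, sub_zero] at h
    exact h.trans (by linarith [prod_le_sq F hz])
  rw [h1, abs_mul, abs_of_pos (by positivity)]
  have h3 : |∑ z ∈ 𝒜 ×ˢ ℬ, ∑ x ∈ Icc 1 L, gg z (x + d)| ≤ (k:ℝ) ^ 2 * (4 * (P:ℝ) ^ 2) := by
    calc |∑ z ∈ 𝒜 ×ˢ ℬ, ∑ x ∈ Icc 1 L, gg z (x + d)|
        ≤ ∑ z ∈ 𝒜 ×ˢ ℬ, |∑ x ∈ Icc 1 L, gg z (x + d)| := Finset.abs_sum_le_sum_abs _ _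
      _ ≤ ∑ z ∈ 𝒜 ×ˢ ℬ, 4 * (P:ℝ) ^ 2 := Finset.sum_le_sum h2
      _ = (k:ℝ) ^ 2 * (4 * (P:ℝ) ^ 2) := by
        rw [Finset.sum_const, Finset.card_product, F.cA, F.cB]
        simp [sq]
  calc 1 / (k:ℝ) ^ 2 * |∑ z ∈ 𝒜 ×ˢ ℬ, ∑ x ∈ Icc 1 L, gg z (x + d)|
      ≤ 1 / (k:ℝ) ^ 2 * ((k:ℝ) ^ 2 * (4 * (P:ℝ) ^ 2)) :=
        mul_le_mul_of_nonneg_left h3 (by positivity)
    _ = 4 * (P:ℝ) ^ 2 := by field_simp

/-- the mean value of `G(x) G(x+d)` -/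
noncomputable def mu (𝒜 ℬ : Finset ℕ) (k d : ℕ) : ℝ :=
  (1 / (k:ℝ) ^ 4) * ∑ z ∈ 𝒜 ×ˢ ℬ, (2 / ((z.1 * z.2 : ℕ) : ℝ)) * gg z d

lemma pair_mean (F : Fam 𝒜 ℬ k R P) {z w : ℕ × ℕ} (hz : z ∈ 𝒜 ×ˢ ℬ) (hw : w ∈ 𝒜 ×ˢ ℬ) (L d : ℕ) :
    |∑ x ∈ Icc 1 L, gg z x * gg w (x + d) -
      L * (if z = w then (2 / ((z.1 * z.2 : ℕ) : ℝ)) * gg z d else 0)| ≤ 4 * (P:ℝ) ^ 4 := by
  have gz := F.good hz
  have gw := F.good hw
  have qz : 0 < z.1 * z.2 := Nat.mul_pos gz.p1.pos gz.p2.pos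
  have qw : 0 < w.1 * w.2 := Nat.mul_pos gw.p1.pos gw.p2.pos
  have hsum : ∑ x ∈ range ((z.1 * z.2) * (w.1 * w.2)), gg z x * gg w (x + d) =
      ((z.1 * z.2) * (w.1 * w.2) : ℕ) *
        (if z = w then (2 / ((z.1 * z.2 : ℕ) : ℝ)) * gg z d else 0) := by
    by_cases hzw : z = w
    · subst hzw
      have hper : ∀ x, (fun x => gg z x * gg z (x + d)) (x + z.1 * z.2) =
          (fun x => gg z x * gg z (x + d)) x := by
        intro x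
        have : x + z.1 * z.2 + d = x + d + z.1 * z.2 := by ring
        simp only [this, gg_periodic]
      rw [sum_range_mul hper, sum_gg_self gz]
      simp only [if_true]
      have hq : ((z.1 * z.2 : ℕ) : ℝ) ≠ 0 := by exact_mod_cast qz.ne'
      rw [Nat.cast_mul (z.1 * z.2) (z.1 * z.2)]
      field_simp
    · simp only [hzw, if_false, mul_zero]
      apply sum_gg_cross gz gw
      obtain ⟨hz1, hz2⟩ := Finset.mem_product.mp hz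
      obtain ⟨hw1, hw2⟩ := Finset.mem_product.mp hw
      by_contra hcon
      push Not at hcon
      apply hzw
      have e1 : z.1 = w.1 := by
        rcases (Nat.Prime.dvd_mul gz.p1).mp hcon.1 with h | h
        · exact (Nat.prime_dvd_prime_iff_eq gz.p1 gw.p1).mp h
        · have := (Nat.prime_dvd_prime_iff_eq gz.p1 gw.p2).mp h
          exact absurd hw2 (Finset.disjoint_left.mp F.disj (this ▸ hz1))
      have e2 : z.2 = w.2 := by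
        rcases (Nat.Prime.dvd_mul gz.p2).mp hcon.2 with h | h
        · have := (Nat.prime_dvd_prime_iff_eq gz.p2 gw.p1).mp h
          exact absurd (this ▸ hz2) (Finset.disjoint_left.mp F.disj hw1)
        · exact (Nat.prime_dvd_prime_iff_eq gz.p2 gw.p2).mp h
      exact Prod.ext e1 e2
  have h := sum_Icc_periodic (a := fun x => gg z x * gg w (x + d))
    (m := (z.1 * z.2) * (w.1 * w.2)) (Nat.mul_pos qz qw)
    (fun x => by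
      have e1 : gg z (x + z.1 * z.2 * (w.1 * w.2)) = gg z x :=
        periodic_mul (gg_periodic z) _ _
      have e2 : gg w (x + z.1 * z.2 * (w.1 * w.2) + d) = gg w (x + d) := by
        have : x + z.1 * z.2 * (w.1 * w.2) + d = x + d + (w.1 * w.2) * (z.1 * z.2) := by ring
        rw [this]
        exact periodic_mul (gg_periodic w) _ _
      simp only [e1, e2])
    (fun x => by
      rw [abs_mul]
      exact mul_le_one₀ (abs_gg_le gz x) (abs_nonneg _) (abs_gg_le gw _)) hsum L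
  refine h.trans ?_
  have a := prod_le_sq F hz
  have b := prod_le_sq F hw
  rw [Nat.cast_mul]
  have : ((z.1 * z.2 : ℕ) : ℝ) * ((w.1 * w.2 : ℕ) : ℝ) ≤ (P:ℝ) ^ 2 * (P:ℝ) ^ 2 :=
    mul_le_mul a b (Nat.cast_nonneg _) (by positivity)
  nlinarith

lemma sum_GG_GG (F : Fam 𝒜 ℬ k R P) (L d : ℕ) :
    |∑ x ∈ Icc 1 L, GG 𝒜 ℬ k x * GG 𝒜 ℬ k (x + d) - L * mu 𝒜 ℬ k d| ≤ 4 * (P:ℝ) ^ 4 := by
  have hk : (0:ℝ) < k := by exact_mod_cast F.hk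
  have e : ∑ x ∈ Icc 1 L, GG 𝒜 ℬ k x * GG 𝒜 ℬ k (x + d) - L * mu 𝒜 ℬ k d =
      (1 / (k:ℝ) ^ 4) * ∑ z ∈ 𝒜 ×ˢ ℬ, ∑ w ∈ 𝒜 ×ˢ ℬ,
        (∑ x ∈ Icc 1 L, gg z x * gg w (x + d) -
          L * (if z = w then (2 / ((z.1 * z.2 : ℕ) : ℝ)) * gg z d else 0)) := by
    have e1 : ∑ z ∈ 𝒜 ×ˢ ℬ, ∑ w ∈ 𝒜 ×ˢ ℬ,
        (∑ x ∈ Icc 1 L, gg z x * gg w (x + d) -
          L * (if z = w then (2 / ((z.1 * z.2 : ℕ) : ℝ)) * gg z d else 0)) =
        ∑ z ∈ 𝒜 ×ˢ ℬ, ∑ w ∈ 𝒜 ×ˢ ℬ, ∑ x ∈ Icc 1 L, gg z x * gg w (x + d) -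
        L * ∑ z ∈ 𝒜 ×ˢ ℬ, (2 / ((z.1 * z.2 : ℕ) : ℝ)) * gg z d := by
      simp only [Finset.sum_sub_distrib, ← Finset.mul_sum]
      congr 2
      refine Finset.sum_congr rfl fun z hz => ?_
      rw [Finset.sum_ite_eq]
      simp [hz]
    rw [e1, mul_sub]
    congr 1
    · have e2 : ∀ x, GG 𝒜 ℬ k x * GG 𝒜 ℬ k (x + d) =
          (1 / (k:ℝ) ^ 4) * ∑ z ∈ 𝒜 ×ˢ ℬ, ∑ w ∈ 𝒜 ×ˢ ℬ, gg z x * gg w (x + d) := by
        intro x
        unfold GG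
        rw [← Finset.sum_mul_sum]
        field_simp
      simp only [e2]
      rw [← Finset.mul_sum]
      congr 1
      rw [Finset.sum_comm]
      refine Finset.sum_congr rfl fun z _ => ?_
      rw [Finset.sum_comm]
    · unfold mu
      ring
  rw [e, abs_mul, abs_of_pos (by positivity)]
  have h3 : |∑ z ∈ 𝒜 ×ˢ ℬ, ∑ w ∈ 𝒜 ×ˢ ℬ,
        (∑ x ∈ Icc 1 L, gg z x * gg w (x + d) -
          L * (if z = w then (2 / ((z.1 * z.2 : ℕ) : ℝ)) * gg z d else 0))| ≤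
      (k:ℝ) ^ 4 * (4 * (P:ℝ) ^ 4) := by
    calc _ ≤ ∑ z ∈ 𝒜 ×ˢ ℬ, |∑ w ∈ 𝒜 ×ˢ ℬ,
        (∑ x ∈ Icc 1 L, gg z x * gg w (x + d) -
          L * (if z = w then (2 / ((z.1 * z.2 : ℕ) : ℝ)) * gg z d else 0))| :=
          Finset.abs_sum_le_sum_abs _ _
      _ ≤ ∑ z ∈ 𝒜 ×ˢ ℬ, ∑ w ∈ 𝒜 ×ˢ ℬ, |∑ x ∈ Icc 1 L, gg z x * gg w (x + d) -
          L * (if z = w then (2 / ((z.1 * z.2 : ℕ) : ℝ)) * gg z d else 0)| :=
          Finset.sum_le_sum fun z _ => Finset.abs_sum_le_sum_abs _ _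
      _ ≤ ∑ z ∈ 𝒜 ×ˢ ℬ, ∑ w ∈ 𝒜 ×ˢ ℬ, 4 * (P:ℝ) ^ 4 :=
          Finset.sum_le_sum fun z hz => Finset.sum_le_sum fun w hw => pair_mean F hz hw L d
      _ = (k:ℝ) ^ 4 * (4 * (P:ℝ) ^ 4) := by
        rw [Finset.sum_const, Finset.sum_const, Finset.card_product, F.cA, F.cB]
        simp only [nsmul_eq_mul, Nat.cast_mul]
        ring
  calc _ ≤ 1 / (k:ℝ) ^ 4 * ((k:ℝ) ^ 4 * (4 * (P:ℝ) ^ 4)) :=
        mul_le_mul_of_nonneg_left h3 (by positivity)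
    _ = 4 * (P:ℝ) ^ 4 := by field_simp

/-- the gain -/
noncomputable def gam (k R P J : ℕ) : ℝ :=
  (1 / (k:ℝ) ^ 4) * (((k:ℝ) - J) ^ 2 / (P:ℝ) ^ 3 - 2 * (J:ℝ) ^ 2 / (R:ℝ) ^ 2)

lemma mu_le (F : Fam 𝒜 ℬ k R P) {J y : ℕ} (hJk : J ≤ k) (hy : 0 < y) (hyJ : y < R ^ (J + 1)) :
    mu 𝒜 ℬ k (y ^ 2) ≤ - gam k R P J := by
  have hk : (0:ℝ) < k := by exact_mod_cast F.hk
  have hR : (0:ℝ) < R := by
    have := F.hR
    have : 0 < R := by omega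
    exact_mod_cast this
  have jA := card_dvd_le F.hR F.pA F.lA hy hyJ
  have jB := card_dvd_le F.hR F.pB F.lB hy hyJ
  have cA' : (𝒜.filter (fun p => ¬ p ∣ y)).card + (𝒜.filter (fun p => p ∣ y)).card = k := by
    rw [← F.cA, add_comm]; exact Finset.card_filter_add_card_filter_not _
  have cB' : (ℬ.filter (fun p => ¬ p ∣ y)).card + (ℬ.filter (fun p => p ∣ y)).card = k := by
    rw [← F.cB, add_comm]; exact Finset.card_filter_add_card_filter_not _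
  -- P > 0
  have hP : (0:ℝ) < P := by
    have hne : 𝒜.Nonempty := Finset.card_pos.mp (by rw [F.cA]; exact F.hk)
    obtain ⟨p, hp⟩ := hne
    have := F.uA p hp
    have := (F.pA p hp).pos
    have : 0 < P := by omega
    exact_mod_cast this
  -- pointwise bound
  have hpt : ∀ z ∈ 𝒜 ×ˢ ℬ, (2 / ((z.1 * z.2 : ℕ) : ℝ)) * gg z (y ^ 2) ≤
      (if z ∈ (𝒜.filter (fun p => ¬ p ∣ y)) ×ˢ (ℬ.filter (fun p => ¬ p ∣ y)) then
        - (1 / (P:ℝ) ^ 3) else 0) +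
      (if z ∈ (𝒜.filter (fun p => p ∣ y)) ×ˢ (ℬ.filter (fun p => p ∣ y)) then
        2 / (R:ℝ) ^ 2 else 0) := by
    intro z hz
    have gz := F.good hz
    obtain ⟨hz1, hz2⟩ := Finset.mem_product.mp hz
    have q0 : (0:ℝ) < ((z.1 * z.2 : ℕ) : ℝ) := by exact_mod_cast Nat.mul_pos gz.p1.pos gz.p2.pos
    have c0 : (0:ℝ) < 2 / ((z.1 * z.2 : ℕ) : ℝ) := by positivity
    by_cases d1 : z.1 ∣ y
    · by_cases d2 : z.2 ∣ y
      · have m1 : z ∈ (𝒜.filter (fun p => p ∣ y)) ×ˢ (ℬ.filter (fun p => p ∣ y)) := by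
          simp [hz1, hz2, d1, d2]
        have m2 : z ∉ (𝒜.filter (fun p => ¬ p ∣ y)) ×ˢ (ℬ.filter (fun p => ¬ p ∣ y)) := by
          simp [d1]
        rw [if_pos m1, if_neg m2, zero_add]
        have g1 : gg z (y ^ 2) ≤ 1 := (abs_le.mp (abs_gg_le gz _)).2
        have q1 : (R:ℝ) ^ 2 ≤ ((z.1 * z.2 : ℕ) : ℝ) := by
          have a : (R : ℝ) ≤ z.1 := by exact_mod_cast (F.lA _ hz1).le
          have b : (R : ℝ) ≤ z.2 := by exact_mod_cast (F.lB _ hz2).le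
          push_cast
          rw [sq]
          exact mul_le_mul a b hR.le (by linarith)
        calc 2 / ((z.1 * z.2 : ℕ) : ℝ) * gg z (y ^ 2) ≤ 2 / ((z.1 * z.2 : ℕ) : ℝ) * 1 :=
              mul_le_mul_of_nonneg_left g1 c0.le
          _ = 2 / ((z.1 * z.2 : ℕ) : ℝ) := mul_one _
          _ ≤ 2 / (R:ℝ) ^ 2 := by
              apply div_le_div_of_nonneg_left (by norm_num) (by positivity) q1
      · have m1 : z ∉ (𝒜.filter (fun p => p ∣ y)) ×ˢ (ℬ.filter (fun p => p ∣ y)) := by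
          simp [d2]
        have m2 : z ∉ (𝒜.filter (fun p => ¬ p ∣ y)) ×ˢ (ℬ.filter (fun p => ¬ p ∣ y)) := by
          simp [d1]
        rw [if_neg m1, if_neg m2, zero_add]
        have g1 := gg_sq_nonpos gz (y := y) (fun h => d2 h.2)
        exact mul_nonpos_of_nonneg_of_nonpos c0.le g1
    · have m1 : z ∉ (𝒜.filter (fun p => p ∣ y)) ×ˢ (ℬ.filter (fun p => p ∣ y)) := by
        simp [d1]
      rw [if_neg m1, add_zero]
      by_cases d2 : z.2 ∣ y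
      · have m2 : z ∉ (𝒜.filter (fun p => ¬ p ∣ y)) ×ˢ (ℬ.filter (fun p => ¬ p ∣ y)) := by
          simp [d2]
        rw [if_neg m2]
        have g1 := gg_sq_nonpos gz (y := y) (fun h => d1 h.1)
        exact mul_nonpos_of_nonneg_of_nonpos c0.le g1
      · have m2 : z ∈ (𝒜.filter (fun p => ¬ p ∣ y)) ×ˢ (ℬ.filter (fun p => ¬ p ∣ y)) := by
          simp [hz1, hz2, d1, d2]
        rw [if_pos m2]
        have g1 := gg_sq_le gz d1 d2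
        have s0 : 0 < Real.sqrt (z.1 * z.2) := by linarith [sqrt_ge gz]
        have q1 := prod_le_sq F hz
        have s1 : Real.sqrt (z.1 * z.2) ≤ P := by
          rw [show (P:ℝ) = Real.sqrt ((P:ℝ) ^ 2) by rw [Real.sqrt_sq hP.le]]
          apply Real.sqrt_le_sqrt
          push_cast at q1
          exact q1
        calc 2 / ((z.1 * z.2 : ℕ) : ℝ) * gg z (y ^ 2)
            ≤ 2 / ((z.1 * z.2 : ℕ) : ℝ) * (- (1 / 2) * (1 / Real.sqrt (z.1 * z.2))) :=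
              mul_le_mul_of_nonneg_left g1 c0.le
          _ = - ((1 / ((z.1 * z.2 : ℕ) : ℝ)) * (1 / Real.sqrt (z.1 * z.2))) := by ring
          _ ≤ - ((1 / (P:ℝ) ^ 2) * (1 / (P:ℝ))) := by
              apply neg_le_neg
              apply mul_le_mul
              · exact one_div_le_one_div_of_le q0 q1
              · exact one_div_le_one_div_of_le s0 s1
              · positivity
              · positivity
          _ = - (1 / (P:ℝ) ^ 3) := by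
              field_simp
  have hsum := Finset.sum_le_sum hpt
  rw [Finset.sum_add_distrib, ← Finset.sum_filter, ← Finset.sum_filter] at hsum
  have f1 : (𝒜 ×ˢ ℬ).filter (fun z => z ∈ (𝒜.filter (fun p => ¬ p ∣ y)) ×ˢ
      (ℬ.filter (fun p => ¬ p ∣ y))) =
      (𝒜.filter (fun p => ¬ p ∣ y)) ×ˢ (ℬ.filter (fun p => ¬ p ∣ y)) := by
    ext z
    simp only [Finset.mem_filter, Finset.mem_product]
    tauto
  have f2 : (𝒜 ×ˢ ℬ).filter (fun z => z ∈ (𝒜.filter (fun p => p ∣ y)) ×ˢ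
      (ℬ.filter (fun p => p ∣ y))) =
      (𝒜.filter (fun p => p ∣ y)) ×ˢ (ℬ.filter (fun p => p ∣ y)) := by
    ext z
    simp only [Finset.mem_filter, Finset.mem_product]
    tauto
  rw [f1, f2, Finset.sum_const, Finset.sum_const, Finset.card_product, Finset.card_product] at hsum
  simp only [nsmul_eq_mul, Nat.cast_mul] at hsum
  set a := (𝒜.filter (fun p => ¬ p ∣ y)).card with ha
  set b := (ℬ.filter (fun p => ¬ p ∣ y)).card with hb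
  set a' := (𝒜.filter (fun p => p ∣ y)).card with ha'
  set b' := (ℬ.filter (fun p => p ∣ y)).card with hb'
  have ra : (k:ℝ) - J ≤ a := by
    have : k ≤ a + J := by omega
    have : (k:ℝ) ≤ a + J := by exact_mod_cast this
    linarith
  have rb : (k:ℝ) - J ≤ b := by
    have : k ≤ b + J := by omega
    have : (k:ℝ) ≤ b + J := by exact_mod_cast this
    linarith
  have kJ : (0:ℝ) ≤ (k:ℝ) - J := by
    have : (J:ℝ) ≤ k := by exact_mod_cast hJk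
    linarith
  have ra' : (a':ℝ) ≤ J := by exact_mod_cast jA
  have rb' : (b':ℝ) ≤ J := by exact_mod_cast jB
  have t1 : ((k:ℝ) - J) ^ 2 ≤ (a:ℝ) * b := by
    rw [sq]; exact mul_le_mul ra rb kJ (by linarith)
  have t2 : (a':ℝ) * b' ≤ (J:ℝ) ^ 2 := by
    rw [sq]; exact mul_le_mul ra' rb' (Nat.cast_nonneg _) (Nat.cast_nonneg _)
  have key : ∑ z ∈ 𝒜 ×ˢ ℬ, (2 / ((z.1 * z.2 : ℕ) : ℝ)) * gg z (y ^ 2) ≤
      - (((k:ℝ) - J) ^ 2 / (P:ℝ) ^ 3 - 2 * (J:ℝ) ^ 2 / (R:ℝ) ^ 2) := by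
    have u1 : ((k:ℝ) - J) ^ 2 / (P:ℝ) ^ 3 ≤ (a:ℝ) * b * (1 / (P:ℝ) ^ 3) := by
      rw [div_eq_mul_one_div]
      exact mul_le_mul_of_nonneg_right t1 (by positivity)
    have u2 : (a':ℝ) * b' * (2 / (R:ℝ) ^ 2) ≤ 2 * (J:ℝ) ^ 2 / (R:ℝ) ^ 2 := by
      calc (a':ℝ) * b' * (2 / (R:ℝ) ^ 2) ≤ (J:ℝ) ^ 2 * (2 / (R:ℝ) ^ 2) :=
            mul_le_mul_of_nonneg_right t2 (by positivity)
        _ = 2 * (J:ℝ) ^ 2 / (R:ℝ) ^ 2 := by ring
    push_cast at hsum ⊢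
    linarith
  unfold mu gam
  calc 1 / (k:ℝ) ^ 4 * ∑ z ∈ 𝒜 ×ˢ ℬ, (2 / ((z.1 * z.2 : ℕ) : ℝ)) * gg z (y ^ 2)
      ≤ 1 / (k:ℝ) ^ 4 * (- (((k:ℝ) - J) ^ 2 / (P:ℝ) ^ 3 - 2 * (J:ℝ) ^ 2 / (R:ℝ) ^ 2)) :=
        mul_le_mul_of_nonneg_left key (by positivity)
    _ = _ := by ring

end Pool.Agent.Sarkozy
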