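import Mathlib

/-!
# Rounding a `[0,1]`-valued function to a set, controlling pair correlations

Second moment method over the product measure on subsets of a finite set.
-/

namespace Pool.Agent.Sarkozy

open Finset

/-- The product weight of a subset `A` of `s`. -/
noncomputable def wt (s : Finset ℕ) (f : ℕ → ℝ) (A : Finset ℕ) : ℝ :=
  (∏ i ∈ A, f i) * ∏ i ∈ s \ A, (1 - f i)

lemma wt_nonneg {s : Finset ℕ} {f : ℕ → ℝ} (h0 : ∀ x, 0 ≤ f x) (h1 : ∀ x, f x ≤ 1)
    (A : Finset ℕ) : 0 ≤ wt s f A := by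
  unfold wt
  refine mul_nonneg (prod_nonneg fun i _ => h0 i) (prod_nonneg fun i _ => ?_)
  linarith [h1 i]

lemma sum_wt_ind (s : Finset ℕ) (f : ℕ → ℝ) (S : Finset ℕ) (hS : S ⊆ s) :
    ∑ A ∈ s.powerset, wt s f A * (if S ⊆ A then 1 else 0) = ∏ i ∈ S, f i := by
  have h := Finset.prod_add f (fun i => if i ∈ S then 0 else 1 - f i) s
  have hL : ∏ i ∈ s, (f i + (if i ∈ S then 0 else 1 - f i)) = ∏ i ∈ S, f i := by
    have : ∀ i ∈ s, (f i + (if i ∈ S then 0 else 1 - f i)) = if i ∈ S then f i else 1 := by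
      intro i _
      by_cases hi : i ∈ S <;> simp [hi]
    rw [Finset.prod_congr rfl this, Finset.prod_ite_mem, Finset.inter_eq_right.mpr hS]
  rw [hL] at h
  rw [h]
  refine Finset.sum_congr rfl fun A hA => ?_
  rw [Finset.mem_powerset] at hA
  unfold wt
  by_cases hSA : S ⊆ A
  · simp only [hSA, if_true, mul_one]
    congr 1
    refine Finset.prod_congr rfl fun i hi => ?_
    have : i ∉ S := fun h => (Finset.mem_sdiff.mp hi).2 (hSA h)
    simp [this]
  · simp only [hSA, if_false, mul_zero]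
    obtain ⟨i, hiS, hiA⟩ := Finset.not_subset.mp hSA
    symm
    apply mul_eq_zero_of_right
    exact Finset.prod_eq_zero (Finset.mem_sdiff.mpr ⟨hS hiS, hiA⟩) (by simp [hiS])

lemma sum_wt (s : Finset ℕ) (f : ℕ → ℝ) : ∑ A ∈ s.powerset, wt s f A = 1 := by
  have := sum_wt_ind s f ∅ (Finset.empty_subset _)
  simpa using this

/-- General second moment bound. -/
lemma second_moment {ι : Type*} [DecidableEq ι] (s : Finset ℕ) (f : ℕ → ℝ)
    (h0 : ∀ x, 0 ≤ f x) (h1 : ∀ x, f x ≤ 1) (T : Finset ι) (S : ι → Finset ℕ)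
    (hS : ∀ x ∈ T, S x ⊆ s) :
    ∑ A ∈ s.powerset, wt s f A *
        ((∑ x ∈ T, ((if S x ⊆ A then (1:ℝ) else 0) - ∏ i ∈ S x, f i)) ^ 2) ≤
      ((T ×ˢ T).filter (fun z => ¬ Disjoint (S z.1) (S z.2))).card := by
  classical
  -- expand the square
  have hexp : ∀ A : Finset ℕ,
      (∑ x ∈ T, ((if S x ⊆ A then (1:ℝ) else 0) - ∏ i ∈ S x, f i)) ^ 2 =
        ∑ z ∈ T ×ˢ T, ((if S z.1 ∪ S z.2 ⊆ A then (1:ℝ) else 0)
          - (∏ i ∈ S z.1, f i) * (if S z.2 ⊆ A then (1:ℝ) else 0)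
          - (∏ i ∈ S z.2, f i) * (if S z.1 ⊆ A then (1:ℝ) else 0)
          + (∏ i ∈ S z.1, f i) * (∏ i ∈ S z.2, f i)) := by
    intro A
    rw [sq, Finset.sum_mul_sum, ← Finset.sum_product']
    refine Finset.sum_congr rfl fun z _ => ?_
    have : (if S z.1 ∪ S z.2 ⊆ A then (1:ℝ) else 0) =
        (if S z.1 ⊆ A then (1:ℝ) else 0) * (if S z.2 ⊆ A then (1:ℝ) else 0) := by
      by_cases ha : S z.1 ⊆ A <;> by_cases hb : S z.2 ⊆ A <;>
        simp [Finset.union_subset_iff, ha, hb]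
    rw [this]
    ring
  have hswap : ∑ A ∈ s.powerset, wt s f A *
        ((∑ x ∈ T, ((if S x ⊆ A then (1:ℝ) else 0) - ∏ i ∈ S x, f i)) ^ 2) =
      ∑ z ∈ T ×ˢ T, ((∏ i ∈ S z.1 ∪ S z.2, f i) - (∏ i ∈ S z.1, f i) * (∏ i ∈ S z.2, f i)) := by
    simp_rw [hexp, Finset.mul_sum]
    rw [Finset.sum_comm]
    refine Finset.sum_congr rfl fun z hz => ?_
    obtain ⟨hz1, hz2⟩ := Finset.mem_product.mp hz
    have e1 := sum_wt_ind s f (S z.1 ∪ S z.2) (Finset.union_subset (hS _ hz1) (hS _ hz2))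
    have e2 := sum_wt_ind s f (S z.1) (hS _ hz1)
    have e3 := sum_wt_ind s f (S z.2) (hS _ hz2)
    have e4 := sum_wt s f
    calc ∑ A ∈ s.powerset, wt s f A * ((if S z.1 ∪ S z.2 ⊆ A then (1:ℝ) else 0)
          - (∏ i ∈ S z.1, f i) * (if S z.2 ⊆ A then (1:ℝ) else 0)
          - (∏ i ∈ S z.2, f i) * (if S z.1 ⊆ A then (1:ℝ) else 0)
          + (∏ i ∈ S z.1, f i) * (∏ i ∈ S z.2, f i))
        = ∑ A ∈ s.powerset, wt s f A * (if S z.1 ∪ S z.2 ⊆ A then (1:ℝ) else 0)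
          - (∏ i ∈ S z.1, f i) * ∑ A ∈ s.powerset, wt s f A * (if S z.2 ⊆ A then (1:ℝ) else 0)
          - (∏ i ∈ S z.2, f i) * ∑ A ∈ s.powerset, wt s f A * (if S z.1 ⊆ A then (1:ℝ) else 0)
          + (∏ i ∈ S z.1, f i) * (∏ i ∈ S z.2, f i) * ∑ A ∈ s.powerset, wt s f A := by
          simp only [Finset.mul_sum, ← Finset.sum_sub_distrib, ← Finset.sum_add_distrib]
          refine Finset.sum_congr rfl fun A _ => ?_
          ring
      _ = _ := by
          rw [e1, e2, e3, e4]; ring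
  rw [hswap]
  have hle : ∀ z ∈ T ×ˢ T,
      ((∏ i ∈ S z.1 ∪ S z.2, f i) - (∏ i ∈ S z.1, f i) * (∏ i ∈ S z.2, f i)) ≤
        if ¬ Disjoint (S z.1) (S z.2) then (1:ℝ) else 0 := by
    intro z _
    by_cases hd : Disjoint (S z.1) (S z.2)
    · rw [Finset.prod_union hd]; simp [hd]
    · simp only [hd, not_false_eq_true, if_true]
      have a1 : (∏ i ∈ S z.1 ∪ S z.2, f i) ≤ 1 :=
        Finset.prod_le_one (fun i _ => h0 i) (fun i _ => h1 i)
      have a2 : 0 ≤ (∏ i ∈ S z.1, f i) * (∏ i ∈ S z.2, f i) :=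
        mul_nonneg (prod_nonneg fun i _ => h0 i) (prod_nonneg fun i _ => h0 i)
      linarith
  calc _ ≤ ∑ z ∈ T ×ˢ T, (if ¬ Disjoint (S z.1) (S z.2) then (1:ℝ) else 0) :=
        Finset.sum_le_sum hle
    _ = _ := by
        rw [Finset.sum_ite]
        simp

lemma card_pairs_le (N d : ℕ) :
    (((Icc 1 (N - d) ×ˢ Icc 1 (N - d)).filter
      (fun z : ℕ × ℕ => ¬ Disjoint ({z.1, z.1 + d} : Finset ℕ) {z.2, z.2 + d})).card : ℝ) ≤ 3 * N := by
  have hsub : ((Icc 1 (N - d) ×ˢ Icc 1 (N - d)).filter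
      (fun z : ℕ × ℕ => ¬ Disjoint ({z.1, z.1 + d} : Finset ℕ) {z.2, z.2 + d})) ⊆
      ((Icc 1 N).image (fun x => (x, x))) ∪ ((Icc 1 N).image (fun x => (x, x + d))) ∪
        ((Icc 1 N).image (fun x => (x + d, x))) := by
    rintro ⟨x, y⟩ hz
    simp only [Finset.mem_filter, Finset.mem_product, Finset.mem_Icc, Finset.disjoint_left,
      Finset.mem_insert, Finset.mem_singleton, not_forall, not_not] at hz
    obtain ⟨⟨⟨hx1, hx2⟩, hy1, hy2⟩, a, ha, hb⟩ := hz
    simp only [Finset.mem_union, Finset.mem_image, Finset.mem_Icc, Prod.mk.injEq]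
    rcases ha with rfl | rfl <;> rcases hb with h | h
    · left; left; exact ⟨a, ⟨hx1, by omega⟩, rfl, h⟩
    · right; exact ⟨y, ⟨hy1, by omega⟩, h.symm, rfl⟩
    · left; right; exact ⟨x, ⟨hx1, by omega⟩, rfl, h⟩
    · left; left; exact ⟨x, ⟨hx1, by omega⟩, rfl, by omega⟩
  have hc := Finset.card_le_card hsub
  have h1 : ((Icc 1 N).image (fun x => (x, x))).card ≤ N :=
    Finset.card_image_le.trans (by simp)
  have h2 : ((Icc 1 N).image (fun x => (x, x + d))).card ≤ N :=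
    Finset.card_image_le.trans (by simp)
  have h3 : ((Icc 1 N).image (fun x => (x + d, x))).card ≤ N :=
    Finset.card_image_le.trans (by simp)
  have h4 := Finset.card_union_le (((Icc 1 N).image (fun x => (x, x))) ∪
    ((Icc 1 N).image (fun x => (x, x + d)))) ((Icc 1 N).image (fun x => (x + d, x)))
  have h5 := Finset.card_union_le ((Icc 1 N).image (fun x => (x, x)))
    ((Icc 1 N).image (fun x => (x, x + d)))
  have : (((Icc 1 (N - d) ×ˢ Icc 1 (N - d)).filter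
      (fun z : ℕ × ℕ => ¬ Disjoint ({z.1, z.1 + d} : Finset ℕ) {z.2, z.2 + d})).card) ≤ 3 * N := by
    omega
  exact_mod_cast this

/-- **Rounding lemma.** A `[0,1]`-valued function on `{1,…,N}` can be rounded to a set whose size and
pair correlations at all the shifts in `D` are close to those of the function. -/
theorem exists_rounding (N : ℕ) (f : ℕ → ℝ) (h0 : ∀ x, 0 ≤ f x) (h1 : ∀ x, f x ≤ 1)
    (D : Finset ℕ) (hD : ∀ d ∈ D, 0 < d) :
    ∃ A : Finset ℕ, A ⊆ Icc 1 N ∧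
      ((A.card : ℝ) - ∑ x ∈ Icc 1 N, f x) ^ 2 ≤ (3 * (D.card : ℝ) + 1) * N ∧
      ∀ d ∈ D, (((A.filter (fun x => x + d ∈ A)).card : ℝ) -
        ∑ x ∈ Icc 1 (N - d), f x * f (x + d)) ^ 2 ≤ (3 * (D.card : ℝ) + 1) * N := by
  classical
  set s := Icc 1 N with hs
  -- the functional
  let F : Finset ℕ → ℝ := fun A =>
    ((∑ x ∈ Icc 1 N, ((if ({x} : Finset ℕ) ⊆ A then (1:ℝ) else 0) - ∏ i ∈ ({x} : Finset ℕ), f i)) ^ 2)
    + ∑ d ∈ D, ((∑ x ∈ Icc 1 (N - d), ((if ({x, x + d} : Finset ℕ) ⊆ A then (1:ℝ) else 0)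
        - ∏ i ∈ ({x, x + d} : Finset ℕ), f i)) ^ 2)
  have hF : ∑ A ∈ s.powerset, wt s f A * F A ≤ (3 * (D.card : ℝ) + 1) * N := by
    have e : ∑ A ∈ s.powerset, wt s f A * F A =
      ∑ A ∈ s.powerset, wt s f A * ((∑ x ∈ Icc 1 N, ((if ({x} : Finset ℕ) ⊆ A then (1:ℝ) else 0)
        - ∏ i ∈ ({x} : Finset ℕ), f i)) ^ 2)
      + ∑ d ∈ D, ∑ A ∈ s.powerset, wt s f A *
        ((∑ x ∈ Icc 1 (N - d), ((if ({x, x + d} : Finset ℕ) ⊆ A then (1:ℝ) else 0)
        - ∏ i ∈ ({x, x + d} : Finset ℕ), f i)) ^ 2) := by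
      rw [Finset.sum_comm (s := D), ← Finset.sum_add_distrib]
      refine Finset.sum_congr rfl fun A _ => ?_
      simp only [F]
      rw [mul_add, Finset.mul_sum]
    rw [e]
    have b1 := second_moment s f h0 h1 (Icc 1 N) (fun x => {x}) (by
      intro x hx; simpa [hs] using hx)
    have c1 : (((Icc 1 N ×ˢ Icc 1 N).filter
        (fun z : ℕ × ℕ => ¬ Disjoint ({z.1} : Finset ℕ) {z.2})).card : ℝ) ≤ N := by
      have : ((Icc 1 N ×ˢ Icc 1 N).filter
        (fun z : ℕ × ℕ => ¬ Disjoint ({z.1} : Finset ℕ) {z.2})) ⊆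
          (Icc 1 N).image (fun x => (x, x)) := by
        rintro ⟨x, y⟩ hz
        simp only [Finset.mem_filter, Finset.mem_product, Finset.mem_Icc,
          Finset.disjoint_singleton, ne_eq, not_not] at hz
        simp only [Finset.mem_image, Finset.mem_Icc, Prod.mk.injEq]
        exact ⟨x, hz.1.1, rfl, hz.2⟩
      have h := (Finset.card_le_card this).trans Finset.card_image_le
      have h' : (Icc 1 N).card = N := by simp
      rw [h'] at h
      exact_mod_cast h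
    have b2 : ∀ d ∈ D, ∑ A ∈ s.powerset, wt s f A *
        ((∑ x ∈ Icc 1 (N - d), ((if ({x, x + d} : Finset ℕ) ⊆ A then (1:ℝ) else 0)
        - ∏ i ∈ ({x, x + d} : Finset ℕ), f i)) ^ 2) ≤ 3 * N := by
      intro d hd
      have hd0 := hD d hd
      refine (second_moment s f h0 h1 (Icc 1 (N - d)) (fun x => {x, x + d}) ?_).trans
        (card_pairs_le N d)
      intro x hx
      simp only [Finset.mem_Icc] at hx
      intro y hy
      simp only [Finset.mem_insert, Finset.mem_singleton] at hy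
      rw [hs, Finset.mem_Icc]
      omega
    have b3 := Finset.sum_le_sum b2
    rw [Finset.sum_const, nsmul_eq_mul] at b3
    have b1' := b1.trans c1
    nlinarith [b1', b3]
  have hex : ∃ A ∈ s.powerset, F A ≤ (3 * (D.card : ℝ) + 1) * N := by
    by_contra hcon
    push Not at hcon
    have hw := sum_wt s f
    have hpos : 0 < ∑ A ∈ s.powerset, wt s f A * (F A - (3 * (D.card : ℝ) + 1) * N) := by
      have hne : ∃ A ∈ s.powerset, 0 < wt s f A := by
        by_contra hz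
        push Not at hz
        have : ∑ A ∈ s.powerset, wt s f A ≤ 0 := Finset.sum_nonpos hz
        linarith
      obtain ⟨A0, hA0, hA0'⟩ := hne
      refine Finset.sum_pos' (fun A hA => mul_nonneg (wt_nonneg h0 h1 A)
        (by linarith [hcon A hA])) ⟨A0, hA0, mul_pos hA0' (by linarith [hcon A0 hA0])⟩
    have : ∑ A ∈ s.powerset, wt s f A * (F A - (3 * (D.card : ℝ) + 1) * N) =
        ∑ A ∈ s.powerset, wt s f A * F A - (3 * (D.card : ℝ) + 1) * N := by
      simp only [mul_sub, Finset.sum_sub_distrib]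
      rw [← Finset.sum_mul, hw, one_mul]
    linarith
  obtain ⟨A, hA, hFA⟩ := hex
  rw [Finset.mem_powerset] at hA
  refine ⟨A, hA, ?_, ?_⟩
  · have e1 : (A.card : ℝ) - ∑ x ∈ Icc 1 N, f x =
        ∑ x ∈ Icc 1 N, ((if ({x} : Finset ℕ) ⊆ A then (1:ℝ) else 0)
          - ∏ i ∈ ({x} : Finset ℕ), f i) := by
      simp only [Finset.singleton_subset_iff, Finset.prod_singleton, Finset.sum_sub_distrib]
      congr 1
      rw [← Finset.sum_filter, Finset.sum_const, nsmul_eq_mul, mul_one,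
        Finset.filter_mem_eq_inter, Finset.inter_eq_right.mpr hA]
    rw [e1]
    refine le_trans ?_ hFA
    have : 0 ≤ ∑ d ∈ D, ((∑ x ∈ Icc 1 (N - d), ((if ({x, x + d} : Finset ℕ) ⊆ A then (1:ℝ) else 0)
        - ∏ i ∈ ({x, x + d} : Finset ℕ), f i)) ^ 2) := Finset.sum_nonneg fun d _ => sq_nonneg _
    simp only [F]
    linarith
  · intro d hd
    have hd0 := hD d hd
    have e1 : ((A.filter (fun x => x + d ∈ A)).card : ℝ) - ∑ x ∈ Icc 1 (N - d), f x * f (x + d) =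
        ∑ x ∈ Icc 1 (N - d), ((if ({x, x + d} : Finset ℕ) ⊆ A then (1:ℝ) else 0)
          - ∏ i ∈ ({x, x + d} : Finset ℕ), f i) := by
      rw [Finset.sum_sub_distrib]
      congr 1
      · rw [← Finset.sum_filter, Finset.sum_const, nsmul_eq_mul, mul_one]
        congr 2
        ext x
        simp only [Finset.mem_filter, Finset.mem_Icc, Finset.insert_subset_iff,
          Finset.singleton_subset_iff]
        constructor
        · rintro ⟨h1, h2⟩
          have ha := hA h1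
          have hb := hA h2
          rw [hs, Finset.mem_Icc] at ha hb
          exact ⟨⟨ha.1, by omega⟩, h1, h2⟩
        · rintro ⟨_, h1, h2⟩
          exact ⟨h1, h2⟩
      · refine Finset.sum_congr rfl fun x _ => ?_
        rw [Finset.prod_pair (by omega)]
    rw [e1]
    refine le_trans ?_ hFA
    have h2 : ((∑ x ∈ Icc 1 (N - d), ((if ({x, x + d} : Finset ℕ) ⊆ A then (1:ℝ) else 0)
        - ∏ i ∈ ({x, x + d} : Finset ℕ), f i)) ^ 2) ≤
      ∑ d ∈ D, ((∑ x ∈ Icc 1 (N - d), ((if ({x, x + d} : Finset ℕ) ⊆ A then (1:ℝ) else 0)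
        - ∏ i ∈ ({x, x + d} : Finset ℕ), f i)) ^ 2) :=
      Finset.single_le_sum (f := fun d => ((∑ x ∈ Icc 1 (N - d),
        ((if ({x, x + d} : Finset ℕ) ⊆ A then (1:ℝ) else 0)
        - ∏ i ∈ ({x, x + d} : Finset ℕ), f i)) ^ 2)) (fun d _ => sq_nonneg _) hd
    have h3 : 0 ≤ ((∑ x ∈ Icc 1 N, ((if ({x} : Finset ℕ) ⊆ A then (1:ℝ) else 0)
      - ∏ i ∈ ({x} : Finset ℕ), f i)) ^ 2) := sq_nonneg _
    simp only [F]
    linarith

end Pool.Agent.Sarkozy
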