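import Mathlib
import Pool.Agent.Sarkozy.Average
import Pool.Agent.Sarkozy.Rounding

/-!
# A set with no popular square difference
-/

namespace Pool.Agent.Sarkozy

open Finset

variable {𝒜 ℬ : Finset ℕ} {k R P : ℕ}

/-- Existence of a set of density about `1/2` all of whose square differences are unpopular. -/
theorem exists_bad_set (F : Fam 𝒜 ℬ k R P) {J T : ℕ} (hJk : J ≤ k)
    (hT : T ^ 2 < R ^ (J + 1)) (hγ1 : gam k R P J ≤ 1)
    (herr : 3 * (P:ℝ) ^ 4 + 2 * (T:ℝ) ^ 3 ≤ gam k R P J / 32 * (T:ℝ) ^ 4)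
    (hP1 : 1 ≤ P) :
    ∃ A : Finset ℕ, A ⊆ Icc 1 (T ^ 4) ∧
      (1 / 2 - gam k R P J / 32) * ((T ^ 4 : ℕ) : ℝ) ≤ A.card ∧
      ∀ y : ℕ, 0 < y → ((A.filter (fun x => x + y ^ 2 ∈ A)).card : ℝ) ≤
        (1 / 4 - gam k R P J * (7 / 32)) * ((T ^ 4 : ℕ) : ℝ) := by
  set γ := gam k R P J with hγ
  let f : ℕ → ℝ := fun x => 1 / 2 + (1 / 2) * GG 𝒜 ℬ k x
  have hG := fun x => abs_le.mp (abs_GG_le F x)
  have f0 : ∀ x, 0 ≤ f x := fun x => by simp only [f]; linarith [(hG x).1]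
  have f1 : ∀ x, f x ≤ 1 := fun x => by simp only [f]; linarith [(hG x).2]
  let D : Finset ℕ := (Icc 1 (T ^ 2)).image (fun y => y ^ 2)
  have hD : ∀ d ∈ D, 0 < d := by
    intro d hd
    simp only [D, Finset.mem_image, Finset.mem_Icc] at hd
    obtain ⟨y, ⟨hy, _⟩, rfl⟩ := hd
    positivity
  have hDc : (D.card : ℝ) ≤ (T:ℝ) ^ 2 := by
    have : D.card ≤ T ^ 2 := Finset.card_image_le.trans (by simp)
    exact_mod_cast this
  obtain ⟨A, hA, hA1, hA2⟩ := exists_rounding (T ^ 4) f f0 f1 D hD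
  have hT0 : (0:ℝ) ≤ T := Nat.cast_nonneg _
  have hPr : (1:ℝ) ≤ P := by exact_mod_cast hP1
  -- T ≥ 1
  have hTpos : 1 ≤ T := by
    by_contra h
    have : T = 0 := by omega
    subst this
    norm_num at herr
    have : (0:ℝ) < (P:ℝ) ^ 4 := by positivity
    linarith
  have hT1 : (1:ℝ) ≤ T := by exact_mod_cast hTpos
  have hbound : (3 * (D.card : ℝ) + 1) * ((T ^ 4 : ℕ) : ℝ) ≤ (2 * (T:ℝ) ^ 3) ^ 2 := by
    have h1 : (3 * (D.card : ℝ) + 1) ≤ 4 * (T:ℝ) ^ 2 := by nlinarith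
    push_cast
    calc (3 * (D.card : ℝ) + 1) * (T:ℝ) ^ 4 ≤ (4 * (T:ℝ) ^ 2) * (T:ℝ) ^ 4 :=
          mul_le_mul_of_nonneg_right h1 (by positivity)
      _ = (2 * (T:ℝ) ^ 3) ^ 2 := by ring
  have hA1' := abs_le_of_sq_le_sq' (hA1.trans hbound) (by positivity)
  refine ⟨A, hA, ?_, ?_⟩
  · -- the size
    have s1 : ∑ x ∈ Icc 1 (T ^ 4), f x = ((T ^ 4 : ℕ) : ℝ) / 2 +
        (1 / 2) * ∑ x ∈ Icc 1 (T ^ 4), GG 𝒜 ℬ k x := by
      simp only [f]
      rw [Finset.sum_add_distrib, Finset.sum_const, ← Finset.mul_sum]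
      simp
      ring
    have s2 := (abs_le.mp (abs_sum_GG_le F (T ^ 4) 0)).1
    simp only [add_zero] at s2
    have s3 := hA1'.1
    rw [s1] at s3
    have s4 : (P:ℝ) ^ 2 ≤ (P:ℝ) ^ 4 := pow_le_pow_right₀ hPr (by norm_num)
    push_cast at s3 s2 ⊢
    nlinarith
  · intro y hy
    by_cases hyT : y ≤ T ^ 2
    · have hd : y ^ 2 ∈ D := by
        simp only [D, Finset.mem_image, Finset.mem_Icc]
        exact ⟨y, ⟨hy, hyT⟩, rfl⟩
      have h2 := abs_le_of_sq_le_sq' ((hA2 _ hd).trans hbound) (by positivity)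
      have hyJ : y < R ^ (J + 1) := lt_of_le_of_lt hyT hT
      have hmu := mu_le F hJk hy hyJ
      set d := y ^ 2 with hdd
      set L := T ^ 4 - d with hL
      have s1 : ∑ x ∈ Icc 1 L, f x * f (x + d) = (L:ℝ) / 4 +
          (1 / 4) * ∑ x ∈ Icc 1 L, GG 𝒜 ℬ k (x + 0) + (1 / 4) * ∑ x ∈ Icc 1 L, GG 𝒜 ℬ k (x + d)
          + (1 / 4) * ∑ x ∈ Icc 1 L, GG 𝒜 ℬ k x * GG 𝒜 ℬ k (x + d) := by
        have e : ∀ x, f x * f (x + d) = 1 / 4 + (1 / 4) * GG 𝒜 ℬ k (x + 0)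
            + (1 / 4) * GG 𝒜 ℬ k (x + d) + (1 / 4) * (GG 𝒜 ℬ k x * GG 𝒜 ℬ k (x + d)) := by
          intro x; simp only [f, add_zero]; ring
        simp only [e]
        rw [Finset.sum_add_distrib, Finset.sum_add_distrib, Finset.sum_add_distrib,
          Finset.sum_const, ← Finset.mul_sum, ← Finset.mul_sum, ← Finset.mul_sum]
        simp
        ring
      have s2 := (abs_le.mp (abs_sum_GG_le F L 0)).2
      have s3 := (abs_le.mp (abs_sum_GG_le F L d)).2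
      have s4 := (abs_le.mp (sum_GG_GG F L d)).2
      have s5 : (P:ℝ) ^ 2 ≤ (P:ℝ) ^ 4 := pow_le_pow_right₀ hPr (by norm_num)
      have hLN : (L:ℝ) ≤ (T:ℝ) ^ 4 := by
        have : L ≤ T ^ 4 := Nat.sub_le _ _
        exact_mod_cast this
      have hL0 : (0:ℝ) ≤ L := Nat.cast_nonneg _
      have s6 : (L:ℝ) / 4 + (1 / 4) * (L * mu 𝒜 ℬ k d) ≤ (1 / 4) * (1 - γ) * (T:ℝ) ^ 4 := by
        have a1 : (L:ℝ) * mu 𝒜 ℬ k d ≤ L * (-γ) := mul_le_mul_of_nonneg_left hmu hL0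
        have a2 : (L:ℝ) * (1 - γ) ≤ (T:ℝ) ^ 4 * (1 - γ) :=
          mul_le_mul_of_nonneg_right hLN (by linarith)
        nlinarith
      have h3 := h2.2
      rw [s1] at h3
      push_cast
      nlinarith
    · -- y large: empty
      push Not at hyT
      have hempty : A.filter (fun x => x + y ^ 2 ∈ A) = ∅ := by
        rw [Finset.filter_eq_empty_iff]
        intro x hx hxy
        have h1 := Finset.mem_Icc.mp (hA hx)
        have h2 := Finset.mem_Icc.mp (hA hxy)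
        have h3 : (T ^ 2) ^ 2 < y ^ 2 := Nat.pow_lt_pow_left hyT (by norm_num)
        have h4 : (T ^ 2) ^ 2 = T ^ 4 := by ring
        omega
      rw [hempty]
      simp only [Finset.card_empty, Nat.cast_zero]
      apply mul_nonneg
      · linarith
      · positivity

end Pool.Agent.Sarkozy
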