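import Mathlib
import Pool.Agent.Sarkozy.Average

/-!
# Supply of primes
-/

namespace Pool.Agent.Sarkozy

open Finset Filter

lemma many_primes : ∀ᶠ n : ℕ in atTop, 14 * n ^ 7 ≤ Nat.primeCounting (n ^ 8) := by
  have h1 : ∀ᶠ x : ℝ in atTop, ‖Real.log x‖ ≤ (1 / 448) * ‖x‖ :=
    Real.isLittleO_log_id_atTop.def (by norm_num)
  have h2 : ∀ᶠ n : ℕ in atTop, ‖Real.log (n:ℝ)‖ ≤ (1 / 448) * ‖(n:ℝ)‖ :=
    tendsto_natCast_atTop_atTop.eventually h1
  filter_upwards [h2, eventually_ge_atTop 10] with n hn hn10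
  have hn0 : (10:ℝ) ≤ n := by exact_mod_cast hn10
  have hlog0 : 0 < Real.log n := Real.log_pos (by linarith)
  rw [Real.norm_of_nonneg hlog0.le, Real.norm_of_nonneg (by linarith : (0:ℝ) ≤ n)] at hn
  have hpi := Chebyshev.pi_ge (n ^ 8)
  have hlog8 : Real.log ((n ^ 8 : ℕ) : ℝ) = 8 * Real.log n := by
    push_cast
    rw [Real.log_pow]
    norm_num
  rw [hlog8] at hpi
  have hlog1 : Real.log (((n ^ 8 : ℕ) : ℝ) + 1) ≤ (n:ℝ) ^ 8 / 4 := by
    have a : Real.log (((n ^ 8 : ℕ) : ℝ) + 1) ≤ Real.log ((n:ℝ) ^ 9) := by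
      apply Real.log_le_log
      · positivity
      · push_cast
        have : (1:ℝ) ≤ (n:ℝ) ^ 8 := one_le_pow₀ (by linarith)
        nlinarith
    rw [Real.log_pow] at a
    have b : (n:ℝ) ≤ (n:ℝ) ^ 8 := by
      calc (n:ℝ) = (n:ℝ) ^ 1 := (pow_one _).symm
        _ ≤ (n:ℝ) ^ 8 := pow_le_pow_right₀ (by linarith) (by norm_num)
    push_cast at a ⊢
    linarith
  have hlog2 : (1:ℝ) / 2 ≤ Real.log 2 := by linarith [Real.log_two_gt_d9]
  have key : (14:ℝ) * (n:ℝ) ^ 7 ≤ (((n ^ 8 : ℕ) : ℝ) * Real.log 2 - Real.log (((n ^ 8 : ℕ) : ℝ) + 1)) /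
      (8 * Real.log n) := by
    rw [le_div_iff₀ (by positivity)]
    have c1 : (n:ℝ) ^ 8 / 2 ≤ ((n ^ 8 : ℕ) : ℝ) * Real.log 2 := by
      push_cast
      have : (0:ℝ) ≤ (n:ℝ) ^ 8 := by positivity
      nlinarith
    have c2 : (14:ℝ) * (n:ℝ) ^ 7 * (8 * Real.log n) ≤ (n:ℝ) ^ 8 / 4 := by
      have e : (n:ℝ) ^ 8 = (n:ℝ) ^ 7 * n := by ring
      have p7 : (0:ℝ) ≤ (n:ℝ) ^ 7 := by positivity
      have := mul_le_mul_of_nonneg_left hn p7
      rw [e]
      linarith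
    linarith
  have h3 := key.trans hpi
  exact_mod_cast h3

/-- Existence of the two families of primes. -/
lemma exists_fam : ∀ᶠ n : ℕ in atTop, ∃ 𝒜 ℬ : Finset ℕ, Fam 𝒜 ℬ (3 * n ^ 7) (n ^ 7) (n ^ 8) := by
  filter_upwards [many_primes, eventually_ge_atTop 10] with n hn hn10
  have hn7 : 2 ≤ n ^ 7 := by
    calc 2 ≤ n := by omega
      _ = n ^ 1 := (pow_one n).symm
      _ ≤ n ^ 7 := Nat.pow_le_pow_right (by omega) (by norm_num)
  -- primes in `(n^7, n^8]`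
  obtain ⟨S, hS⟩ : ∃ S, S = (Nat.primesLE (n ^ 8)).filter (fun p => n ^ 7 < p) := ⟨_, rfl⟩
  have hScard : 13 * n ^ 7 ≤ S.card := by
    have h1 : (Nat.primesLE (n ^ 8)).card = Nat.primeCounting (n ^ 8) := by
      rw [Nat.primesLE_card_eq_primeCounting]
    have h2 : ((Nat.primesLE (n ^ 8)).filter (fun p => n ^ 7 < p)).card +
        ((Nat.primesLE (n ^ 8)).filter (fun p => ¬ n ^ 7 < p)).card = (Nat.primesLE (n ^ 8)).card :=
      Finset.card_filter_add_card_filter_not _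
    have h3 : ((Nat.primesLE (n ^ 8)).filter (fun p => ¬ n ^ 7 < p)).card ≤ n ^ 7 := by
      have : ((Nat.primesLE (n ^ 8)).filter (fun p => ¬ n ^ 7 < p)) ⊆ Icc 1 (n ^ 7) := by
        intro p hp
        rw [Finset.mem_filter, Nat.mem_primesLE] at hp
        rw [Finset.mem_Icc]
        exact ⟨hp.1.2.pos, by omega⟩
      have h4 := Finset.card_le_card this
      rwa [Nat.card_Icc, Nat.add_sub_cancel] at h4
    rw [← hS] at h2
    omega
  have hSp : ∀ p ∈ S, p.Prime ∧ n ^ 7 < p ∧ p ≤ n ^ 8 := by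
    intro p hp
    rw [hS, Finset.mem_filter, Nat.mem_primesLE] at hp
    exact ⟨hp.1.2, hp.2, hp.1.1⟩
  -- a class mod 4
  have hclass : ∃ c, 6 * n ^ 7 ≤ (S.filter (fun p => p % 4 = c)).card := by
    by_contra hcon
    push Not at hcon
    have h1 := hcon 1
    have h3 := hcon 3
    have hsub : S ⊆ (S.filter (fun p => p % 4 = 1)) ∪ (S.filter (fun p => p % 4 = 3)) := by
      intro p hp
      obtain ⟨hp1, hp2, _⟩ := hSp p hp
      have hodd : p % 2 = 1 := by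
        rcases hp1.eq_two_or_odd with h | h
        · omega
        · exact h
      rw [Finset.mem_union, Finset.mem_filter, Finset.mem_filter]
      have : p % 4 = 1 ∨ p % 4 = 3 := by omega
      rcases this with h | h
      · exact Or.inl ⟨hp, h⟩
      · exact Or.inr ⟨hp, h⟩
    have h4 := (Finset.card_le_card hsub).trans (Finset.card_union_le _ _)
    omega
  obtain ⟨c, hc⟩ := hclass
  obtain ⟨𝒜, hA, hAc⟩ := Finset.exists_subset_card_eq
    (show 3 * n ^ 7 ≤ (S.filter (fun p => p % 4 = c)).card by omega)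
  have hrest : 3 * n ^ 7 ≤ ((S.filter (fun p => p % 4 = c)) \ 𝒜).card := by
    rw [Finset.card_sdiff_of_subset hA, hAc]
    omega
  obtain ⟨ℬ, hB, hBc⟩ := Finset.exists_subset_card_eq hrest
  have hA' : ∀ p ∈ 𝒜, (p.Prime ∧ n ^ 7 < p ∧ p ≤ n ^ 8) ∧ p % 4 = c := by
    intro p hp
    have := Finset.mem_filter.mp (hA hp)
    exact ⟨hSp p this.1, this.2⟩
  have hB' : ∀ p ∈ ℬ, (p.Prime ∧ n ^ 7 < p ∧ p ≤ n ^ 8) ∧ p % 4 = c := by
    intro p hp
    have := Finset.mem_filter.mp (Finset.mem_sdiff.mp (hB hp)).1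
    exact ⟨hSp p this.1, this.2⟩
  refine ⟨𝒜, ℬ, ?_⟩
  exact {
    hk := by positivity
    hR := by
      calc 2 ≤ n := by omega
        _ = n ^ 1 := (pow_one n).symm
        _ ≤ n ^ 7 := Nat.pow_le_pow_right (by omega) (by norm_num)
    cA := hAc
    cB := hBc
    disj := by
      rw [Finset.disjoint_left]
      intro p hp hpB
      exact (Finset.mem_sdiff.mp (hB hpB)).2 hp
    pA := fun p hp => (hA' p hp).1.1
    pB := fun p hp => (hB' p hp).1.1
    lA := fun p hp => (hA' p hp).1.2.1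
    lB := fun p hp => (hB' p hp).1.2.1
    uA := fun p hp => (hA' p hp).1.2.2
    uB := fun p hp => (hB' p hp).1.2.2
    cls := fun p hp q hq => by rw [(hA' p hp).2, (hB' q hq).2] }

end Pool.Agent.Sarkozy
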